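import Pool.Agent.J4H10.BS.Pts

/-!
# Numbers of `m`-th roots in extension fields
-/

set_option autoImplicit false
set_option linter.unusedSectionVars false

open Polynomial

namespace Pool.Agent.J4H10.BS

variable {k : Type} [Field k] [Finite k] {K : Type} [Field K] [Algebra k K] [Finite K]

/-- the number of the `m`-th roots of `t` -/
theorem card_roots (m : ℕ) (χ : MulChar k ℂ) (hχ : orderOf χ = m) (hm : 0 < m)
    (hmq : m ∣ Nat.card k - 1) (t : K) :
    (Nat.card {z : K // z ^ m = t} : ℂ) =
      1 + ∑ i ∈ Finset.Ico 1 m, (χ ^ i) (Algebra.norm k t) := by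
  classical
  letI : Fintype k := Fintype.ofFinite k
  letI : Fintype K := Fintype.ofFinite K
  haveI : Module.Finite k K := Module.Finite.of_finite
  haveI : NeZero m := ⟨hm.ne'⟩
  by_cases ht : t = 0
  · subst ht
    have h1 : Nat.card {z : K // z ^ m = 0} = 1 := by
      rw [Nat.card_eq_one_iff_unique]
      refine ⟨⟨fun x y => Subtype.ext ?_⟩, ⟨⟨0, zero_pow hm.ne'⟩⟩⟩
      rw [pow_eq_zero_iff hm.ne' |>.1 x.2, pow_eq_zero_iff hm.ne' |>.1 y.2]
    rw [h1, Algebra.norm_zero, Finset.sum_eq_zero (fun i _ => MulChar.map_zero _), Nat.cast_one,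
      add_zero]
  · obtain ⟨g, hg⟩ := IsCyclic.exists_generator (α := Kˣ)
    have hog : orderOf g = Nat.card K - 1 := by
      rw [orderOf_eq_card_of_forall_mem_zpowers hg, Nat.card_units]
    have hqQ : Nat.card k - 1 ∣ Nat.card K - 1 := by
      rw [Module.natCard_eq_pow_finrank (K := k) (V := K)]
      have := Nat.sub_dvd_pow_sub_pow (Nat.card k) 1 (Module.finrank k K)
      rwa [one_pow] at this
    have hK1 : 0 < Nat.card K - 1 := by
      have : 1 < Nat.card K := Finite.one_lt_card
      omega
    obtain ⟨e, he⟩ := hmq.trans hqQ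
    have hprim : IsPrimitiveRoot ((g : K) ^ e) m := by
      have h1 : IsPrimitiveRoot (g : K) (Nat.card K - 1) := by
        rw [← hog]
        exact IsPrimitiveRoot.coe_units_iff.2 (IsPrimitiveRoot.orderOf g)
      exact h1.pow hK1 (by rw [he, mul_comm])
    -- the number of roots
    have h2 : Nat.card {z : K // z ^ m = t} = if ∃ α : K, α ^ m = t then m else 0 := by
      have h22 := hprim.card_nthRoots t
      rw [← Multiset.toFinset_card_of_nodup (hprim.nthRoots_nodup ht)] at h22
      have h23 : Nat.card {z : K // z ^ m = t} = (nthRoots m t).toFinset.card := by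
        rw [Nat.card_eq_fintype_card, Fintype.card_subtype]
        congr 1
        ext z
        rw [Finset.mem_filter, Multiset.mem_toFinset, mem_nthRoots hm]
        exact ⟨fun h => h.2, fun h => ⟨Finset.mem_univ _, h⟩⟩
      rw [h23, h22]
      congr
    have hN0 : Algebra.norm k t ≠ 0 := by
      rw [Ne, Algebra.norm_eq_zero_iff]
      exact ht
    obtain ⟨y, hy⟩ : ∃ y, y = χ (Algebra.norm k t) := ⟨_, rfl⟩
    have h3 : ∀ i, (χ ^ i) (Algebra.norm k t) = y ^ i := by
      intro i
      have := MulChar.pow_apply_coe χ i (Units.mk0 _ hN0)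
      rw [hy]
      exact this
    have h4 : 1 + ∑ i ∈ Finset.Ico 1 m, (χ ^ i) (Algebra.norm k t) =
        ∑ i ∈ Finset.range m, y ^ i := by
      rw [Finset.sum_congr rfl fun i _ => h3 i, Finset.range_eq_Ico,
        Finset.sum_eq_sum_Ico_succ_bot hm, pow_zero]
    have hym : y ^ m = 1 := by
      rw [← h3 m, ← hχ, pow_orderOf_eq_one]
      exact MulChar.one_apply (isUnit_iff_ne_zero.2 hN0)
    rw [h2, h4]
    have h5 : (∃ α : K, α ^ m = t) ↔ y = 1 := by
      constructor
      · rintro ⟨α, rfl⟩
        have hα : α ≠ 0 := by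
          rintro rfl
          exact ht (zero_pow hm.ne')
        have hNα : Algebra.norm k α ≠ 0 := by
          rw [Ne, Algebra.norm_eq_zero_iff]
          exact hα
        rw [hy, map_pow, map_pow]
        have := MulChar.pow_apply_coe χ m (Units.mk0 _ hNα)
        rw [Units.val_mk0] at this
        rw [← this, ← hχ, pow_orderOf_eq_one]
        exact MulChar.one_apply (isUnit_iff_ne_zero.2 hNα)
      · intro hy1
        obtain ⟨u, hu⟩ : ∃ u : Kˣ, (u : K) = t := ⟨Units.mk0 t ht, rfl⟩
        obtain ⟨f, hf⟩ := (mem_powers_iff_mem_zpowers.2 (hg u) : u ∈ Submonoid.powers g)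
        obtain ⟨ζ, hζ⟩ : ∃ ζ, ζ = χ (Algebra.norm k (g : K)) := ⟨_, rfl⟩
        have hgN : Algebra.norm k (g : K) ≠ 0 := by
          rw [Ne, Algebra.norm_eq_zero_iff]
          exact g.ne_zero
        have h6 : ζ ^ f = 1 := by
          rw [hζ, ← map_pow, ← map_pow, ← Units.val_pow_eq_pow_val]
          rw [show g ^ f = u from hf, hu, ← hy, hy1]
        have h7 : χ ^ f = 1 := by
          rw [MulChar.eq_one_iff]
          intro v
          obtain ⟨w, hw⟩ := FiniteField.norm_surjective k K (v : k)
          have hw0 : w ≠ 0 := by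
            rintro rfl
            rw [Algebra.norm_zero] at hw
            exact v.ne_zero hw.symm
          obtain ⟨f', hf'⟩ := (mem_powers_iff_mem_zpowers.2 (hg (Units.mk0 w hw0)) :
            Units.mk0 w hw0 ∈ Submonoid.powers g)
          have h8 : (g : K) ^ f' = w := by
            rw [← Units.val_pow_eq_pow_val, show g ^ f' = Units.mk0 w hw0 from hf', Units.val_mk0]
          rw [MulChar.pow_apply_coe, ← hw, ← h8, map_pow, map_pow, ← hζ, ← pow_mul, mul_comm,
            pow_mul, h6, one_pow]
        have h8 : m ∣ f := by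
          rw [← hχ]
          exact orderOf_dvd_of_pow_eq_one h7
        obtain ⟨e', he'⟩ := h8
        refine ⟨(g : K) ^ e', ?_⟩
        rw [← pow_mul, mul_comm, ← he', ← hu, ← Units.val_pow_eq_pow_val]
        rw [show g ^ f = u from hf]
    by_cases hy1 : y = 1
    · rw [if_pos (h5.2 hy1), hy1]
      simp
    · rw [if_neg (fun h => hy1 (h5.1 h)), Nat.cast_zero]
      have h6 := mul_geom_sum y m
      rw [hym, sub_self, mul_eq_zero] at h6
      rcases h6 with h6 | h6
      · exact absurd (sub_eq_zero.1 h6) hy1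
      · exact h6.symm

end Pool.Agent.J4H10.BS
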