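import Pool.Agent.J4H10.JV.Main

/-!
# Inverse roots of the L-polynomial of a squarefree polynomial modulo `ℓ`: orders
-/

set_option autoImplicit false
set_option linter.unusedSectionVars false
set_option linter.style.haveILetI false

open Polynomial

namespace Pool.Agent.J4H10.BS

open Pool.Agent.W313.Hyp Pool.Agent.W343.BSD Pool.Agent.J4H10.Tw Pool.Agent.J4H10.JV

variable {k : Type} [Field k] [Finite k]

open Classical in
/-- the inverse roots of the L-function of a squarefree polynomial are zero modulo `ℓ` or roots of unity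
of order dividing the degree of a prime factor -/
theorem root_fac {κ : Type} [Field κ] (ℓ : ℕ) [Fact ℓ.Prime] [CharP κ ℓ]
    (φ : AI →+* κ) (χ : MulChar k ℂ) (hχ : χ ≠ 1) (a : ℕ) (hχa : χ ^ ℓ ^ a = 1) (c : k)
    (hc : c ≠ 0) (D₀ : k[X]) (hD : D₀.Monic) (hsq : Squarefree D₀) (hdeg : 0 < D₀.natDegree)
    (t : ℂ) (ht : (Lp χ c D₀ 1).eval t = 0) :
    ∃ g : AI, (g : ℂ) * t = 1 ∧
      (φ g ≠ 0 → ∃ P : k[X], Irreducible P ∧ P ∣ D₀ ∧ φ g ^ P.natDegree = 1) := by
  letI : Fintype k := Fintype.ofFinite k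
  have hℓ : ℓ.Prime := Fact.out
  -- `q = 1` in `κ`
  have hqκ : (Nat.card k : κ) = 1 := by
    have h1 : orderOf χ ∣ ℓ ^ a := orderOf_dvd_of_pow_eq_one hχa
    obtain ⟨b, hb, h2⟩ := (Nat.dvd_prime_pow hℓ).1 h1
    have hb0 : b ≠ 0 := by
      rintro rfl
      rw [pow_zero, orderOf_eq_one_iff] at h2
      exact hχ h2
    have h3 : ℓ ∣ Fintype.card k - 1 :=
      ((dvd_pow_self ℓ hb0).trans (dvd_of_eq h2.symm)).trans
        (MulChar.orderOf_dvd_card_sub_one _ χ)
    have h4 : ((Fintype.card k - 1 : ℕ) : κ) = 0 := (CharP.cast_eq_zero_iff κ ℓ _).2 h3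
    rw [Nat.cast_sub Fintype.card_pos, Nat.cast_one, sub_eq_zero] at h4
    rw [Nat.card_eq_fintype_card, h4]
  -- the function with values in `AI`
  let hA : k[X] → AI := fun g => ⟨hf χ c D₀ g, isIntegral_mulChar χ _⟩
  have hAcoe : ∀ g, ((hA g : AI) : ℂ) = hf χ c D₀ g := fun _ => rfl
  have hACM : CM hA := by
    constructor
    · apply Subtype.ext
      exact (hf_CM χ c D₀).1
    · intro g g' hg hg'
      apply Subtype.ext
      exact (hf_CM χ c D₀).2 g g' hg hg'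
  have hS : ∀ m, ((S hA m : AI) : ℂ) = S (hf χ c D₀) m := fun m =>
    S_map (integralClosure ℤ ℂ).val.toRingHom hA m
  let hκ : k[X] → κ := fun g => φ (hA g)
  have hκCM : CM hκ := by
    constructor
    · change φ (hA 1) = 1
      rw [hACM.1, map_one]
    · intro g g' hg hg'
      change φ (hA (g * g')) = _
      rw [hACM.2 g g' hg hg', map_mul]
  have hSκ : ∀ m, φ (S hA m) = S hκ m := fun m => S_map φ hA m
  -- the primes which divide `D₀`
  have hfinZ : {P : MI k | P.1 ∣ D₀}.Finite := by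
    apply (finite_deg_le (F := k) D₀.natDegree).subset
    intro P hP
    exact natDegree_le_of_dvd hP hD.ne_zero
  let Z : Finset (MI k) := hfinZ.toFinset
  have hZ0 : ∀ P ∈ Z, hκ P.1 = 0 := by
    intro P hP
    rw [Set.Finite.mem_toFinset] at hP
    have hP' : P.1 ∣ D₀ := hP
    have h1 : hA P.1 = 0 := by
      apply Subtype.ext
      rw [hAcoe, ← hf_prime χ c D₀ P.1 hD P.2.1]
      have h2 : nrm P.1 (C c * D₀) = 0 := by
        unfold nrm
        rw [(AdjoinRoot.mk_eq_zero).2 (hP'.mul_left _)]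
        haveI : Fact (Irreducible P.1) := ⟨P.2.2⟩
        haveI : Module.Finite k (AdjoinRoot P.1) := P.2.1.finite_adjoinRoot
        exact Algebra.norm_zero
      rw [h2, MulChar.map_zero]
      rfl
    change φ (hA P.1) = 0
    rw [h1, map_zero]
  have hZ1 : ∀ P ∉ Z, hκ P.1 = 1 := by
    intro P hP
    rw [Set.Finite.mem_toFinset] at hP
    have hP' : ¬ P.1 ∣ D₀ := hP
    apply eq_one_of_pow ℓ _ a
    change φ (hA P.1) ^ ℓ ^ a = 1
    rw [← map_pow]
    have h1 : hA P.1 ^ ℓ ^ a = 1 := by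
      apply Subtype.ext
      rw [SubmonoidClass.coe_pow, hAcoe, ← hf_prime χ c D₀ P.1 hD P.2.1]
      haveI : Fact (Irreducible P.1) := ⟨P.2.2⟩
      haveI : Module.Finite k (AdjoinRoot P.1) := P.2.1.finite_adjoinRoot
      have h2 : nrm P.1 (C c * D₀) ≠ 0 := by
        unfold nrm
        rw [Algebra.norm_ne_zero_iff, Ne, AdjoinRoot.mk_eq_zero]
        intro h3
        rcases P.2.2.prime.dvd_or_dvd h3 with h4 | h4
        · have h5 : IsUnit (C c : k[X]) := isUnit_C.2 (isUnit_iff_ne_zero.2 hc)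
          exact P.2.2.not_isUnit (isUnit_of_dvd_unit h4 h5)
        · exact hP' h4
      have h6 := MulChar.pow_apply_coe χ (ℓ ^ a) (Units.mk0 _ h2)
      rw [hχa, MulChar.one_apply_coe] at h6
      exact h6.symm
    rw [h1, map_one]
  have hgen := gen_identity hκ hκCM hqκ Z hZ0 hZ1
  -- the reduction of the L-polynomial
  set n := D₀.natDegree with hn
  let Lκ : κ[X] := ∑ m ∈ Finset.range n, C (S hκ m) * X ^ m
  have hSA0 : ∀ m, n ≤ m → S hA m = 0 := by
    intro m hm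
    apply Subtype.ext
    rw [hS m, S_hf_eq_zero χ hχ c D₀ hD hsq hdeg m hm]
    rfl
  have hLκ : ((Lκ : κ[X]) : PowerSeries κ) = PowerSeries.mk (S hκ) := by
    ext m
    rw [coeff_coe, PowerSeries.coeff_mk]
    change (∑ m ∈ Finset.range n, C (S hκ m) * X ^ m : κ[X]).coeff m = _
    rw [finsetSum_coeff]
    simp only [coeff_C_mul, coeff_X_pow, mul_ite, mul_one, mul_zero]
    rw [Finset.sum_ite_eq]
    split_ifs with h
    · rfl
    · rw [Finset.mem_range, not_lt] at h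
      rw [← hSκ m, hSA0 m h, map_zero]
  have hpoly : (1 - X) * Lκ = ∏ P ∈ Z, (1 - X ^ P.1.natDegree) := by
    apply Polynomial.coe_injective
    rw [Polynomial.coe_mul, hLκ, Polynomial.coe_sub, Polynomial.coe_one, Polynomial.coe_X, hgen,
      ← Polynomial.coeToPowerSeries.ringHom_apply, map_prod]
    refine Finset.prod_congr rfl fun P _ => ?_
    rw [Polynomial.coeToPowerSeries.ringHom_apply]
    push_cast
    rfl
  obtain ⟨s, hsdef⟩ : ∃ s : ℕ → AI, s = S hA := ⟨_, rfl⟩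
  have hs : ∀ m, (s m : ℂ) = S (hf χ c D₀) m := by rw [hsdef]; exact hS
  have hs0 : s 0 = 1 := by
    apply Subtype.ext
    rw [hs, S_zero (hf_CM χ c D₀)]
    rfl
  have hn0 : 0 < n := hdeg
  have hev : ∑ m ∈ Finset.range n, (s m : ℂ) * t ^ m = 0 := by
    rw [← ht]
    unfold Lp
    rw [eval_finset_sum, ← hn]
    refine Finset.sum_congr rfl fun m _ => ?_
    rw [eval_mul, eval_C, eval_pow, eval_X, one_pow, mul_one, hs]
  have ht0 : t ≠ 0 := by
    rintro rfl
    rw [Finset.sum_eq_single_of_mem 0 (Finset.mem_range.2 hn0) (fun m _ hm => by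
      rw [zero_pow hm, mul_zero]), hs0] at hev
    simp at hev
  have hev2 : ∑ m ∈ Finset.range n, (s m : ℂ) * t⁻¹ ^ (n - 1 - m) = 0 := by
    have h1 : ∑ m ∈ Finset.range n, (s m : ℂ) * t⁻¹ ^ (n - 1 - m) =
        t⁻¹ ^ (n - 1) * ∑ m ∈ Finset.range n, (s m : ℂ) * t ^ m := by
      rw [Finset.mul_sum]
      refine Finset.sum_congr rfl fun m hm => ?_
      rw [Finset.mem_range] at hm
      have h2 : t⁻¹ ^ (n - 1) = t⁻¹ ^ (n - 1 - m) * t⁻¹ ^ m := by
        rw [← pow_add]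
        congr 1
        omega
      have h3 : t⁻¹ ^ m * t ^ m = 1 := by rw [← mul_pow, inv_mul_cancel₀ ht0, one_pow]
      rw [h2]
      calc (s m : ℂ) * t⁻¹ ^ (n - 1 - m) = (s m : ℂ) * t⁻¹ ^ (n - 1 - m) * 1 := (mul_one _).symm
        _ = _ := by rw [← h3]; ring
    rw [h1, hev, mul_zero]
  obtain ⟨R, hR⟩ : ∃ R : AI[X], R = ∑ m ∈ Finset.range n, C (s m) * X ^ (n - 1 - m) := ⟨_, rfl⟩
  have hRm : R.Monic := by
    apply monic_of_natDegree_le_of_coeff_eq_one (n - 1)
    · rw [hR]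
      refine natDegree_sum_le_of_forall_le _ _ fun m _ => ?_
      exact (natDegree_C_mul_X_pow_le _ _).trans (Nat.sub_le _ _)
    · rw [hR, finsetSum_coeff, Finset.sum_eq_single_of_mem 0 (Finset.mem_range.2 hn0) (by
        intro m hm hm0
        rw [Finset.mem_range] at hm
        rw [coeff_C_mul, coeff_X_pow, if_neg (by omega), mul_zero])]
      rw [coeff_C_mul, coeff_X_pow, if_pos (by omega), mul_one, hs0]
  have hRe : aeval t⁻¹ R = 0 := by
    rw [hR, map_sum, ← hev2]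
    refine Finset.sum_congr rfl fun m _ => ?_
    rw [map_mul, aeval_C, map_pow, aeval_X]
    rfl
  have hint : IsIntegral ℤ t⁻¹ := isIntegral_trans (R := ℤ) (A := AI) t⁻¹ ⟨R, hRm, by
    rw [← aeval_def]; exact hRe⟩
  obtain ⟨g, hg⟩ : ∃ g : AI, (g : ℂ) = t⁻¹ := ⟨⟨t⁻¹, hint⟩, rfl⟩
  refine ⟨g, by rw [hg, inv_mul_cancel₀ ht0], fun hg0 => ?_⟩
  have hev3 : ∑ m ∈ Finset.range n, s m * g ^ (n - 1 - m) = 0 := by
    apply Subtype.ext
    have h1 : ((∑ m ∈ Finset.range n, s m * g ^ (n - 1 - m) : AI) : ℂ) =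
        ∑ m ∈ Finset.range n, (s m : ℂ) * t⁻¹ ^ (n - 1 - m) := by
      rw [← hg]
      push_cast
      rfl
    rw [h1, hev2]
    rfl
  have hev4 : Lκ.eval (φ g)⁻¹ = 0 := by
    have h1 := congrArg φ hev3
    rw [map_sum, map_zero] at h1
    have h2 : Lκ.eval (φ g)⁻¹ = (φ g)⁻¹ ^ (n - 1) *
        ∑ m ∈ Finset.range n, φ (s m * g ^ (n - 1 - m)) := by
      change (∑ m ∈ Finset.range n, C (S hκ m) * X ^ m : κ[X]).eval (φ g)⁻¹ = _
      rw [eval_finset_sum, Finset.mul_sum]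
      refine Finset.sum_congr rfl fun m hm => ?_
      rw [Finset.mem_range] at hm
      rw [eval_mul, eval_C, eval_pow, eval_X, map_mul, map_pow, hsdef, hSκ]
      have h3 : (φ g)⁻¹ ^ (n - 1) = (φ g)⁻¹ ^ (n - 1 - m) * (φ g)⁻¹ ^ m := by
        rw [← pow_add]
        congr 1
        omega
      have h4 : (φ g)⁻¹ ^ (n - 1 - m) * φ g ^ (n - 1 - m) = 1 := by
        rw [← mul_pow, inv_mul_cancel₀ hg0, one_pow]
      rw [h3]
      linear_combination (-(S hκ m * (φ g)⁻¹ ^ m)) * h4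
    rw [h2, h1, mul_zero]
  have h5 := congrArg (eval (φ g)⁻¹) hpoly
  rw [eval_mul, hev4, mul_zero, eval_prod] at h5
  obtain ⟨P, hP, h6⟩ := Finset.prod_eq_zero_iff.1 h5.symm
  rw [eval_sub, eval_one, eval_pow, eval_X, sub_eq_zero] at h6
  rw [Set.Finite.mem_toFinset] at hP
  refine ⟨P.1, P.2.2, hP, ?_⟩
  have h7 : ((φ g)⁻¹ ^ P.1.natDegree)⁻¹ = 1 := by rw [← h6, inv_one]
  rwa [inv_pow, inv_inv] at h7

end Pool.Agent.J4H10.BS
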