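import Pool.Agent.J4H10.BS.Cnt
import Pool.Agent.J4H10.BS.Fac

/-!
# Character sums of arbitrary polynomials
-/

set_option autoImplicit false
set_option linter.unusedSectionVars false
set_option linter.style.haveILetI false

open Polynomial

namespace Pool.Agent.J4H10.BS

open Pool.Agent.W313.Hyp Pool.Agent.W343.BSD Pool.Agent.J4H10.Tw Pool.Agent.J4H10.JV

variable {k : Type} [Field k] [Finite k] {K : Type} [Field K] [Algebra k K] [Finite K]

theorem S_van (χ : MulChar k ℂ) (c : k) (D₀ : k[X]) (hD : D₀.Monic)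
    (hu : ∃ u : AdjoinRoot D₀, IsUnit u ∧ χ (Algebra.norm k u) ≠ 1) (m : ℕ)
    (hm : D₀.natDegree ≤ m) : S (hf χ c D₀) m = 0 := by
  obtain ⟨u, hu, hua⟩ := hu
  have h1 := sum_mon_eq_zero D₀ hD (fun x => χ (Algebra.norm k x))
    (fun x y => by rw [map_mul, map_mul]) u hu hua m hm
  have h2 : S (hf χ c D₀) m = χ ((c * (-1) ^ D₀.natDegree) ^ m) *
      ∑ᶠ (g : k[X]) (_ : g ∈ {g : k[X] | g.Monic ∧ g.natDegree = m}),
        χ (Algebra.norm k (AdjoinRoot.mk D₀ g)) := by
    rw [S, finsum_mem_eq_finite_toFinset_sum _ (finite_mon m),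
      finsum_mem_eq_finite_toFinset_sum _ (finite_mon m), Finset.mul_sum]
    refine Finset.sum_congr rfl fun g hg => ?_
    rw [Set.Finite.mem_toFinset] at hg
    unfold hf nrm
    rw [hg.2, map_mul]
  rw [h2, h1, mul_zero]

theorem coef_gen (χ : MulChar k ℂ) (c : k) (D₀ : k[X])
    (hvan : ∀ m, D₀.natDegree ≤ m → S (hf χ c D₀) m = 0) (m : ℕ) :
    (Lp χ c D₀ 1).coeff m = S (hf χ c D₀) m := by
  unfold Lp
  rw [finsetSum_coeff]
  simp only [coeff_C_mul, coeff_X_pow, mul_ite, mul_one, mul_zero]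
  rw [Finset.sum_ite_eq]
  split_ifs with h
  · rw [one_pow, mul_one]
  · rw [Finset.mem_range, not_lt] at h
    rw [hvan m h]

theorem sum_char' (χ : MulChar k ℂ) (c : k) (D₀ : k[X]) (hD : D₀.Monic)
    (hcoef : ∀ m, (Lp χ c D₀ 1).coeff m = S (hf χ c D₀) m) [Fintype K] :
    ∑ x : K, χ (Algebra.norm k (aeval x (C c * D₀))) =
      -((Lp χ c D₀ 1).roots.map fun t => t⁻¹ ^ Module.finrank k K).sum := by
  classical
  haveI : Module.Finite k K := Module.Finite.of_finite
  obtain ⟨n, hn⟩ : ∃ n, n = Module.finrank k K := ⟨_, rfl⟩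
  have hn0 : 0 < n := by rw [hn]; exact Module.finrank_pos
  obtain ⟨A, hA⟩ : ∃ A : Finset (MI k), A = (finite_deg_le (F := k) n).toFinset := ⟨_, rfl⟩
  have hA' : ∀ P : MI k, P.1.natDegree ≤ n → P ∈ A := fun P hP => by
    rw [hA, Set.Finite.mem_toFinset]; exact hP
  rw [sum_points χ (C c * D₀) A (by rw [← hn]; exact hA'), ← hn]
  obtain ⟨h, hh⟩ : ∃ h, h = hf χ c D₀ := ⟨_, rfl⟩
  have hCM : CM h := by rw [hh]; exact hf_CM χ c D₀
  have hL0 : (Lp χ c D₀ 1).coeff 0 = 1 := by
    rw [hcoef, S_zero (hf_CM χ c D₀)]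
  have hne : Lp χ c D₀ 1 ≠ 0 := by
    intro h
    rw [h, coeff_zero] at hL0
    exact zero_ne_one hL0
  -- the Euler product side
  have h1 := prod_mul_GH hCM A
  have hc1 : ∀ P : MI k, PowerSeries.constantCoeff
      (1 - PowerSeries.C (h P.1) * PowerSeries.X ^ P.1.natDegree : PowerSeries ℂ) = 1 := by
    intro P
    rw [map_sub, map_one, map_mul, map_pow, PowerSeries.constantCoeff_X,
      zero_pow P.2.2.natDegree_pos.ne', mul_zero, sub_zero]
  have hcE : PowerSeries.constantCoeff (∏ P ∈ A,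
      (1 - PowerSeries.C (h P.1) * PowerSeries.X ^ P.1.natDegree : PowerSeries ℂ)) = 1 := by
    rw [map_prod]
    exact Finset.prod_eq_one fun P _ => hc1 P
  have hcG : PowerSeries.constantCoeff (GH h A) = 1 := by
    have h2 := congrArg PowerSeries.constantCoeff h1
    rwa [map_mul, hcE, one_mul, map_one] at h2
  have h2 := congrArg ld h1
  rw [ld_mul _ _ (by rw [hcE]; exact one_ne_zero) (by rw [hcG]; exact one_ne_zero), ld_one,
    ld_prod _ _ (fun P _ => by rw [hc1 P]; exact one_ne_zero)] at h2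
  have h3 := congrArg (PowerSeries.coeff n) h2
  rw [map_add, map_sum, map_zero] at h3
  have h4 : ∀ P ∈ A, PowerSeries.coeff n
      (ld (1 - PowerSeries.C (h P.1) * PowerSeries.X ^ P.1.natDegree)) =
      -(if P.1.natDegree ∣ n then (P.1.natDegree : ℂ) * h P.1 ^ (n / P.1.natDegree) else 0) :=
    fun P _ => coeff_ld_one_sub (h P.1) P.1.natDegree P.2.2.natDegree_pos n hn0
  rw [Finset.sum_congr rfl h4, Finset.sum_neg_distrib] at h3
  -- the polynomial side
  have h5 : ((Lp χ c D₀ 1 : ℂ[X]) : PowerSeries ℂ) =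
      ((Lp χ c D₀ 1).roots.map fun t => (1 - PowerSeries.C t⁻¹ * PowerSeries.X ^ 1 :
        PowerSeries ℂ)).prod := by
    have h6 : (Lp χ c D₀ 1).roots.card = (Lp χ c D₀ 1).natDegree :=
      splits_iff_card_roots.1 (IsAlgClosed.splits _)
    have h7 := C_leadingCoeff_mul_prod_multiset_X_sub_C h6
    have h8 : ∀ t ∈ (Lp χ c D₀ 1).roots, t ≠ 0 := by
      rintro t ht rfl
      rw [mem_roots hne, IsRoot.def, ← coeff_zero_eq_eval_zero, hL0] at ht
      exact one_ne_zero ht
    have h9 : ∀ s : Multiset ℂ, (∀ t ∈ s, t ≠ 0) →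
        (s.map fun t => (X - C t : ℂ[X])).prod =
          C ((s.map fun t => -t).prod) * (s.map fun t => (1 - C t⁻¹ * X : ℂ[X])).prod := by
      intro s
      induction s using Multiset.induction_on with
      | empty => intro _; simp
      | cons a s ih =>
        intro hs
        rw [Multiset.map_cons, Multiset.prod_cons, Multiset.map_cons, Multiset.prod_cons,
          Multiset.map_cons, Multiset.prod_cons, ih fun t ht => hs t (Multiset.mem_cons_of_mem ht),
          C_mul]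
        have h10 : (X - C a : ℂ[X]) = C (-a) * (1 - C a⁻¹ * X) := by
          have h11 : C a * C a⁻¹ = (1 : ℂ[X]) := by
            rw [← C_mul, mul_inv_cancel₀ (hs a (Multiset.mem_cons_self _ _)), C_1]
          rw [C_neg]
          linear_combination (-X) * h11
        rw [h10]
        ring
    rw [h9 _ h8, ← mul_assoc, ← C_mul] at h7
    have h10 : (Lp χ c D₀ 1).leadingCoeff * ((Lp χ c D₀ 1).roots.map fun t => -t).prod = 1 := by
      have h11 := congrArg (fun p : ℂ[X] => p.coeff 0) h7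
      rw [hL0, coeff_C_mul] at h11
      have h12 : ((Lp χ c D₀ 1).roots.map fun t => (1 - C t⁻¹ * X : ℂ[X])).prod.coeff 0 = 1 := by
        rw [coeff_zero_multiset_prod, Multiset.map_map]
        apply Multiset.prod_eq_one
        intro y hy
        rw [Multiset.mem_map] at hy
        obtain ⟨t, _, rfl⟩ := hy
        simp
      rwa [h12, mul_one] at h11
    rw [h10, C_1, one_mul] at h7
    rw [← h7]
    have h13 : ∀ s : Multiset ℂ, (((s.map fun t => (1 - C t⁻¹ * X : ℂ[X])).prod : ℂ[X]) :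
        PowerSeries ℂ) = (s.map fun t => (1 - PowerSeries.C t⁻¹ * PowerSeries.X ^ 1 :
          PowerSeries ℂ)).prod := by
      intro s
      induction s using Multiset.induction_on with
      | empty => simp
      | cons a s ih =>
        rw [Multiset.map_cons, Multiset.prod_cons, Multiset.map_cons, Multiset.prod_cons,
          Polynomial.coe_mul, ih]
        congr 1
        simp
    rw [h13, h7]
  have h6 : PowerSeries.coeff n (ld (GH h A)) =
      PowerSeries.coeff n (ld ((Lp χ c D₀ 1 : ℂ[X]) : PowerSeries ℂ)) := by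
    refine ld_congr _ _ (by rw [hcG]; exact one_ne_zero) ?_ n fun m hm => ?_
    · rw [Polynomial.constantCoeff_coe, hL0]
      exact one_ne_zero
    · rw [coeff_GH h A n hA' m hm, Polynomial.coeff_coe,
        hcoef, hh]
  have h7 : PowerSeries.coeff n (ld ((Lp χ c D₀ 1 : ℂ[X]) : PowerSeries ℂ)) =
      -((Lp χ c D₀ 1).roots.map fun t => t⁻¹ ^ n).sum := by
    rw [h5, ld_multiset _ _ (fun t => by
      rw [map_sub, map_one, map_mul, map_pow, PowerSeries.constantCoeff_X, zero_pow one_ne_zero,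
        mul_zero, sub_zero]; exact one_ne_zero), map_multiset_sum, Multiset.map_map]
    have h14 : ∀ s : Multiset ℂ, (s.map ((fun A => PowerSeries.coeff n A) ∘
        fun t => ld (1 - PowerSeries.C t⁻¹ * PowerSeries.X ^ 1 : PowerSeries ℂ))).sum =
        -(s.map fun t => t⁻¹ ^ n).sum := by
      intro s
      induction s using Multiset.induction_on with
      | empty => simp
      | cons a s ih =>
        rw [Multiset.map_cons, Multiset.sum_cons, Multiset.map_cons, Multiset.sum_cons, ih,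
          Function.comp_apply, coeff_ld_one_sub _ 1 one_pos n hn0, if_pos (one_dvd _),
          Nat.cast_one, one_mul, Nat.div_one]
        ring
    exact h14 _
  rw [h6, h7] at h3
  have h8 : ∀ P ∈ A, (if P.1.natDegree ∣ n then
      (P.1.natDegree : ℂ) * χ (nrm P.1 (C c * D₀)) ^ (n / P.1.natDegree) else 0) =
      (if P.1.natDegree ∣ n then (P.1.natDegree : ℂ) * h P.1 ^ (n / P.1.natDegree) else 0) := by
    intro P _
    rw [hf_prime χ c D₀ P.1 hD P.2.1, hh]
  rw [Finset.sum_congr rfl h8]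
  linear_combination -h3

open Classical in
/-- the inverse roots of the L-function of a squarefree polynomial are zero modulo `ℓ` or roots of unity
of order dividing the degree of a prime factor -/
theorem root_fac' {κ : Type} [Field κ] (ℓ : ℕ) [Fact ℓ.Prime] [CharP κ ℓ]
    (φ : AI →+* κ) (χ : MulChar k ℂ) (hχ : χ ≠ 1) (a : ℕ) (hχa : χ ^ ℓ ^ a = 1) (c : k)
    (hc : c ≠ 0) (D₀ : k[X]) (hD : D₀.Monic)
    (hvan : ∀ m, D₀.natDegree ≤ m → S (hf χ c D₀) m = 0) (hdeg : 0 < D₀.natDegree)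
    (t : ℂ) (ht : (Lp χ c D₀ 1).eval t = 0) :
    ∃ g : AI, (g : ℂ) * t = 1 ∧
      (φ g ≠ 0 → ∃ P : k[X], Irreducible P ∧ P ∣ D₀ ∧ φ g ^ P.natDegree = 1) := by
  letI : Fintype k := Fintype.ofFinite k
  have hℓ : ℓ.Prime := Fact.out
  -- `q = 1` in `κ`
  have hqκ : (Nat.card k : κ) = 1 := by
    have h1 : orderOf χ ∣ ℓ ^ a := orderOf_dvd_of_pow_eq_one hχa
    obtain ⟨b, hb, h2⟩ := (Nat.dvd_prime_pow hℓ).1 h1
    have hb0 : b ≠ 0 := by
      rintro rfl
      rw [pow_zero, orderOf_eq_one_iff] at h2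
      exact hχ h2
    have h3 : ℓ ∣ Fintype.card k - 1 :=
      ((dvd_pow_self ℓ hb0).trans (dvd_of_eq h2.symm)).trans
        (MulChar.orderOf_dvd_card_sub_one _ χ)
    have h4 : ((Fintype.card k - 1 : ℕ) : κ) = 0 := (CharP.cast_eq_zero_iff κ ℓ _).2 h3
    rw [Nat.cast_sub Fintype.card_pos, Nat.cast_one, sub_eq_zero] at h4
    rw [Nat.card_eq_fintype_card, h4]
  -- the function with values in `AI`
  let hA : k[X] → AI := fun g => ⟨hf χ c D₀ g, isIntegral_mulChar χ _⟩
  have hAcoe : ∀ g, ((hA g : AI) : ℂ) = hf χ c D₀ g := fun _ => rfl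
  have hACM : CM hA := by
    constructor
    · apply Subtype.ext
      exact (hf_CM χ c D₀).1
    · intro g g' hg hg'
      apply Subtype.ext
      exact (hf_CM χ c D₀).2 g g' hg hg'
  have hS : ∀ m, ((S hA m : AI) : ℂ) = S (hf χ c D₀) m := fun m =>
    S_map (integralClosure ℤ ℂ).val.toRingHom hA m
  let hκ : k[X] → κ := fun g => φ (hA g)
  have hκCM : CM hκ := by
    constructor
    · change φ (hA 1) = 1
      rw [hACM.1, map_one]
    · intro g g' hg hg'
      change φ (hA (g * g')) = _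
      rw [hACM.2 g g' hg hg', map_mul]
  have hSκ : ∀ m, φ (S hA m) = S hκ m := fun m => S_map φ hA m
  -- the primes which divide `D₀`
  have hfinZ : {P : MI k | P.1 ∣ D₀}.Finite := by
    apply (finite_deg_le (F := k) D₀.natDegree).subset
    intro P hP
    exact natDegree_le_of_dvd hP hD.ne_zero
  let Z : Finset (MI k) := hfinZ.toFinset
  have hZ0 : ∀ P ∈ Z, hκ P.1 = 0 := by
    intro P hP
    rw [Set.Finite.mem_toFinset] at hP
    have hP' : P.1 ∣ D₀ := hP
    have h1 : hA P.1 = 0 := by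
      apply Subtype.ext
      rw [hAcoe, ← hf_prime χ c D₀ P.1 hD P.2.1]
      have h2 : nrm P.1 (C c * D₀) = 0 := by
        unfold nrm
        rw [(AdjoinRoot.mk_eq_zero).2 (hP'.mul_left _)]
        haveI : Fact (Irreducible P.1) := ⟨P.2.2⟩
        haveI : Module.Finite k (AdjoinRoot P.1) := P.2.1.finite_adjoinRoot
        exact Algebra.norm_zero
      rw [h2, MulChar.map_zero]
      rfl
    change φ (hA P.1) = 0
    rw [h1, map_zero]
  have hZ1 : ∀ P ∉ Z, hκ P.1 = 1 := by
    intro P hP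
    rw [Set.Finite.mem_toFinset] at hP
    have hP' : ¬ P.1 ∣ D₀ := hP
    apply eq_one_of_pow ℓ _ a
    change φ (hA P.1) ^ ℓ ^ a = 1
    rw [← map_pow]
    have h1 : hA P.1 ^ ℓ ^ a = 1 := by
      apply Subtype.ext
      rw [SubmonoidClass.coe_pow, hAcoe, ← hf_prime χ c D₀ P.1 hD P.2.1]
      haveI : Fact (Irreducible P.1) := ⟨P.2.2⟩
      haveI : Module.Finite k (AdjoinRoot P.1) := P.2.1.finite_adjoinRoot
      have h2 : nrm P.1 (C c * D₀) ≠ 0 := by
        unfold nrm
        rw [Algebra.norm_ne_zero_iff, Ne, AdjoinRoot.mk_eq_zero]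
        intro h3
        rcases P.2.2.prime.dvd_or_dvd h3 with h4 | h4
        · have h5 : IsUnit (C c : k[X]) := isUnit_C.2 (isUnit_iff_ne_zero.2 hc)
          exact P.2.2.not_isUnit (isUnit_of_dvd_unit h4 h5)
        · exact hP' h4
      have h6 := MulChar.pow_apply_coe χ (ℓ ^ a) (Units.mk0 _ h2)
      rw [hχa, MulChar.one_apply_coe] at h6
      exact h6.symm
    rw [h1, map_one]
  have hgen := gen_identity hκ hκCM hqκ Z hZ0 hZ1
  -- the reduction of the L-polynomial
  set n := D₀.natDegree with hn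
  let Lκ : κ[X] := ∑ m ∈ Finset.range n, C (S hκ m) * X ^ m
  have hSA0 : ∀ m, n ≤ m → S hA m = 0 := by
    intro m hm
    apply Subtype.ext
    rw [hS m, hvan m hm]
    rfl
  have hLκ : ((Lκ : κ[X]) : PowerSeries κ) = PowerSeries.mk (S hκ) := by
    ext m
    rw [coeff_coe, PowerSeries.coeff_mk]
    change (∑ m ∈ Finset.range n, C (S hκ m) * X ^ m : κ[X]).coeff m = _
    rw [finsetSum_coeff]
    simp only [coeff_C_mul, coeff_X_pow, mul_ite, mul_one, mul_zero]
    rw [Finset.sum_ite_eq]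
    split_ifs with h
    · rfl
    · rw [Finset.mem_range, not_lt] at h
      rw [← hSκ m, hSA0 m h, map_zero]
  have hpoly : (1 - X) * Lκ = ∏ P ∈ Z, (1 - X ^ P.1.natDegree) := by
    apply Polynomial.coe_injective
    rw [Polynomial.coe_mul, hLκ, Polynomial.coe_sub, Polynomial.coe_one, Polynomial.coe_X, hgen,
      ← Polynomial.coeToPowerSeries.ringHom_apply, map_prod]
    refine Finset.prod_congr rfl fun P _ => ?_
    rw [Polynomial.coeToPowerSeries.ringHom_apply]
    push_cast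
    rfl
  obtain ⟨s, hsdef⟩ : ∃ s : ℕ → AI, s = S hA := ⟨_, rfl⟩
  have hs : ∀ m, (s m : ℂ) = S (hf χ c D₀) m := by rw [hsdef]; exact hS
  have hs0 : s 0 = 1 := by
    apply Subtype.ext
    rw [hs, S_zero (hf_CM χ c D₀)]
    rfl
  have hn0 : 0 < n := hdeg
  have hev : ∑ m ∈ Finset.range n, (s m : ℂ) * t ^ m = 0 := by
    rw [← ht]
    unfold Lp
    rw [eval_finset_sum, ← hn]
    refine Finset.sum_congr rfl fun m _ => ?_
    rw [eval_mul, eval_C, eval_pow, eval_X, one_pow, mul_one, hs]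
  have ht0 : t ≠ 0 := by
    rintro rfl
    rw [Finset.sum_eq_single_of_mem 0 (Finset.mem_range.2 hn0) (fun m _ hm => by
      rw [zero_pow hm, mul_zero]), hs0] at hev
    simp at hev
  have hev2 : ∑ m ∈ Finset.range n, (s m : ℂ) * t⁻¹ ^ (n - 1 - m) = 0 := by
    have h1 : ∑ m ∈ Finset.range n, (s m : ℂ) * t⁻¹ ^ (n - 1 - m) =
        t⁻¹ ^ (n - 1) * ∑ m ∈ Finset.range n, (s m : ℂ) * t ^ m := by
      rw [Finset.mul_sum]
      refine Finset.sum_congr rfl fun m hm => ?_
      rw [Finset.mem_range] at hm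
      have h2 : t⁻¹ ^ (n - 1) = t⁻¹ ^ (n - 1 - m) * t⁻¹ ^ m := by
        rw [← pow_add]
        congr 1
        omega
      have h3 : t⁻¹ ^ m * t ^ m = 1 := by rw [← mul_pow, inv_mul_cancel₀ ht0, one_pow]
      rw [h2]
      calc (s m : ℂ) * t⁻¹ ^ (n - 1 - m) = (s m : ℂ) * t⁻¹ ^ (n - 1 - m) * 1 := (mul_one _).symm
        _ = _ := by rw [← h3]; ring
    rw [h1, hev, mul_zero]
  obtain ⟨R, hR⟩ : ∃ R : AI[X], R = ∑ m ∈ Finset.range n, C (s m) * X ^ (n - 1 - m) := ⟨_, rfl⟩
  have hRm : R.Monic := by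
    apply monic_of_natDegree_le_of_coeff_eq_one (n - 1)
    · rw [hR]
      refine natDegree_sum_le_of_forall_le _ _ fun m _ => ?_
      exact (natDegree_C_mul_X_pow_le _ _).trans (Nat.sub_le _ _)
    · rw [hR, finsetSum_coeff, Finset.sum_eq_single_of_mem 0 (Finset.mem_range.2 hn0) (by
        intro m hm hm0
        rw [Finset.mem_range] at hm
        rw [coeff_C_mul, coeff_X_pow, if_neg (by omega), mul_zero])]
      rw [coeff_C_mul, coeff_X_pow, if_pos (by omega), mul_one, hs0]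
  have hRe : aeval t⁻¹ R = 0 := by
    rw [hR, map_sum, ← hev2]
    refine Finset.sum_congr rfl fun m _ => ?_
    rw [map_mul, aeval_C, map_pow, aeval_X]
    rfl
  have hint : IsIntegral ℤ t⁻¹ := isIntegral_trans (R := ℤ) (A := AI) t⁻¹ ⟨R, hRm, by
    rw [← aeval_def]; exact hRe⟩
  obtain ⟨g, hg⟩ : ∃ g : AI, (g : ℂ) = t⁻¹ := ⟨⟨t⁻¹, hint⟩, rfl⟩
  refine ⟨g, by rw [hg, inv_mul_cancel₀ ht0], fun hg0 => ?_⟩
  have hev3 : ∑ m ∈ Finset.range n, s m * g ^ (n - 1 - m) = 0 := by
    apply Subtype.ext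
    have h1 : ((∑ m ∈ Finset.range n, s m * g ^ (n - 1 - m) : AI) : ℂ) =
        ∑ m ∈ Finset.range n, (s m : ℂ) * t⁻¹ ^ (n - 1 - m) := by
      rw [← hg]
      push_cast
      rfl
    rw [h1, hev2]
    rfl
  have hev4 : Lκ.eval (φ g)⁻¹ = 0 := by
    have h1 := congrArg φ hev3
    rw [map_sum, map_zero] at h1
    have h2 : Lκ.eval (φ g)⁻¹ = (φ g)⁻¹ ^ (n - 1) *
        ∑ m ∈ Finset.range n, φ (s m * g ^ (n - 1 - m)) := by
      change (∑ m ∈ Finset.range n, C (S hκ m) * X ^ m : κ[X]).eval (φ g)⁻¹ = _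
      rw [eval_finset_sum, Finset.mul_sum]
      refine Finset.sum_congr rfl fun m hm => ?_
      rw [Finset.mem_range] at hm
      rw [eval_mul, eval_C, eval_pow, eval_X, map_mul, map_pow, hsdef, hSκ]
      have h3 : (φ g)⁻¹ ^ (n - 1) = (φ g)⁻¹ ^ (n - 1 - m) * (φ g)⁻¹ ^ m := by
        rw [← pow_add]
        congr 1
        omega
      have h4 : (φ g)⁻¹ ^ (n - 1 - m) * φ g ^ (n - 1 - m) = 1 := by
        rw [← mul_pow, inv_mul_cancel₀ hg0, one_pow]
      rw [h3]
      linear_combination (-(S hκ m * (φ g)⁻¹ ^ m)) * h4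
    rw [h2, h1, mul_zero]
  have h5 := congrArg (eval (φ g)⁻¹) hpoly
  rw [eval_mul, hev4, mul_zero, eval_prod] at h5
  obtain ⟨P, hP, h6⟩ := Finset.prod_eq_zero_iff.1 h5.symm
  rw [eval_sub, eval_one, eval_pow, eval_X, sub_eq_zero] at h6
  rw [Set.Finite.mem_toFinset] at hP
  refine ⟨P.1, P.2.2, hP, ?_⟩
  have h7 : ((φ g)⁻¹ ^ P.1.natDegree)⁻¹ = 1 := by rw [← h6, inv_one]
  rwa [inv_pow, inv_inv] at h7


theorem exists_fn' {α : Type} (s : Multiset α) : ∃ (n : ℕ) (w : Fin n → α), (∀ e, w e ∈ s) ∧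
    ∀ f : α → ℂ, (s.map f).sum = ∑ e, f (w e) := by
  induction s using Quotient.inductionOn with
  | h l =>
    refine ⟨l.length, fun e => l[e], fun e => ?_, fun f => ?_⟩
    · exact List.getElem_mem _
    · have h1 := Fin.sum_univ_fun_getElem l f
      change (l.map f).sum = _
      rw [← h1]
      rfl

/-- the roots of unity of order dividing `d` -/
theorem sum_unity (d : ℕ) (hd : 0 < d) (n : ℕ) :
    ((nthRoots d (1 : ℂ)).map fun x => x ^ n).sum = if d ∣ n then (d : ℂ) else 0 := by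
  have hζ := Complex.isPrimitiveRoot_exp d hd.ne'
  obtain ⟨ζ, hζd⟩ : ∃ ζ, ζ = Complex.exp (2 * Real.pi * Complex.I / d) := ⟨_, rfl⟩
  rw [← hζd] at hζ
  rw [hζ.nthRoots_eq (one_pow d), Multiset.map_map]
  have h1 : (Multiset.map ((fun x : ℂ => x ^ n) ∘ fun i => ζ ^ i * 1) (Multiset.range d)).sum =
      ∑ i ∈ Finset.range d, (ζ ^ n) ^ i := by
    rw [Finset.sum]
    congr 1
    refine Multiset.map_congr rfl fun i _ => ?_
    simp only [Function.comp_apply, mul_one]
    rw [← pow_mul, ← pow_mul, mul_comm]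
  rw [h1]
  split_ifs with h
  · rw [(hζ.pow_eq_one_iff_dvd n).2 h]
    simp
  · have h2 : ζ ^ n ≠ 1 := fun h3 => h ((hζ.pow_eq_one_iff_dvd n).1 h3)
    have h3 := mul_geom_sum (ζ ^ n) d
    rw [← pow_mul, mul_comm n d, pow_mul, hζ.pow_eq_one, one_pow, sub_self, mul_eq_zero] at h3
    rcases h3 with h3 | h3
    · exact absurd (sub_eq_zero.1 h3) h2
    · exact h3

open Classical in
/-- the case of a character which is trivial on the norms -/
theorem sum_triv (χ : MulChar k ℂ) (c : k) (D₀ : k[X]) (hD : D₀.Monic)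
    (htriv : ∀ u : AdjoinRoot D₀, IsUnit u → χ (Algebra.norm k u) = 1) (Z : Finset (MI k))
    (hZ : ∀ P, P ∈ Z ↔ P.1 ∣ D₀) [Fintype K] :
    ∑ x : K, χ (Algebra.norm k (aeval x (C c * D₀))) =
      (χ c * (Nat.card k : ℂ)) ^ Module.finrank k K -
        ∑ P ∈ Z, ((nthRoots P.1.natDegree (1 : ℂ)).map
          fun x => (χ c * x) ^ Module.finrank k K).sum := by
  haveI : Module.Finite k K := Module.Finite.of_finite
  obtain ⟨n, hn⟩ : ∃ n, n = Module.finrank k K := ⟨_, rfl⟩
  have hn0 : 0 < n := by rw [hn]; exact Module.finrank_pos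
  obtain ⟨A, hA⟩ : ∃ A : Finset (MI k), A = (finite_deg_le (F := k) n).toFinset ∪ Z := ⟨_, rfl⟩
  have hA' : ∀ P : MI k, P.1.natDegree ≤ n → P ∈ A := fun P hP => by
    rw [hA, Finset.mem_union, Set.Finite.mem_toFinset]; exact Or.inl hP
  have hZA : Z ⊆ A := by rw [hA]; exact Finset.subset_union_right
  -- the value at a prime
  have hval : ∀ P : MI k, χ (nrm P.1 (C c * D₀)) = if P ∈ Z then 0 else χ c ^ P.1.natDegree := by
    intro P
    haveI : Fact (Irreducible P.1) := ⟨P.2.2⟩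
    haveI : Module.Finite k (AdjoinRoot P.1) := P.2.1.finite_adjoinRoot
    split_ifs with h
    · rw [hZ] at h
      have h2 : nrm P.1 (C c * D₀) = 0 := by
        unfold nrm
        rw [(AdjoinRoot.mk_eq_zero).2 (h.mul_left _)]
        exact Algebra.norm_zero
      rw [h2, MulChar.map_zero]
    · rw [hZ] at h
      have hcop : IsCoprime P.1 D₀ := (P.2.2.coprime_iff_not_dvd).2 h
      have hu : IsUnit (AdjoinRoot.mk D₀ P.1) := by
        obtain ⟨a, b, hab⟩ := hcop
        refine IsUnit.of_mul_eq_one (AdjoinRoot.mk D₀ a) ?_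
        rw [← map_mul, ← map_one (AdjoinRoot.mk D₀), AdjoinRoot.mk_eq_mk]
        exact ⟨-b, by linear_combination hab⟩
      have h1 : χ (nrm D₀ P.1) = 1 := htriv _ hu
      have h2 : χ ((-1) ^ D₀.natDegree) = 1 := by
        have h3 := htriv (AdjoinRoot.mk D₀ (C (-1))) (by
          refine IsUnit.of_mul_eq_one (AdjoinRoot.mk D₀ (C (-1))) ?_
          rw [← map_mul, ← C_mul]
          simp)
        have h4 : nrm D₀ (C (-1)) = (-1) ^ D₀.natDegree := nrm_C D₀ hD (-1)
        rw [← h4]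
        exact h3
      rw [hf_prime χ c D₀ P.1 hD P.2.1]
      unfold hf
      rw [map_mul, h1, mul_one, map_pow, map_mul, h2, mul_one]
  have hone := sum_points (K := K) χ (1 : k[X]) A (by rw [← hn]; exact hA')
  simp only [map_one, Finset.sum_const, Finset.card_univ, nsmul_eq_mul, mul_one, nrm_one_right,
    one_pow] at hone
  rw [← hn] at hone
  rw [sum_points χ (C c * D₀) A (by rw [← hn]; exact hA'), ← hn]
  have h1 : ∀ P ∈ A, (if P.1.natDegree ∣ n then
      (P.1.natDegree : ℂ) * χ (nrm P.1 (C c * D₀)) ^ (n / P.1.natDegree) else 0) =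
      χ c ^ n * (if P.1.natDegree ∣ n then (P.1.natDegree : ℂ) else 0) -
        χ c ^ n * (if P ∈ Z then (if P.1.natDegree ∣ n then (P.1.natDegree : ℂ) else 0) else 0) := by
    intro P _
    rw [hval P]
    by_cases hd : P.1.natDegree ∣ n
    · have h2 : n / P.1.natDegree ≠ 0 := by
        have := Nat.div_pos (Nat.le_of_dvd hn0 hd) P.2.2.natDegree_pos
        omega
      simp only [if_pos hd]
      split_ifs with h
      · rw [zero_pow h2]
        ring
      · rw [← pow_mul, Nat.mul_div_cancel' hd]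
        ring
    · simp only [if_neg hd]
      split_ifs <;> ring
  rw [Finset.sum_congr rfl h1, Finset.sum_sub_distrib, ← Finset.mul_sum, ← Finset.mul_sum, ← hone,
    Finset.sum_ite_mem, Finset.inter_eq_right.2 hZA]
  have h2 : (Fintype.card K : ℂ) = (Nat.card k : ℂ) ^ n := by
    rw [← Nat.card_eq_fintype_card, Module.natCard_eq_pow_finrank (K := k) (V := K), hn]
    push_cast
    rfl
  rw [h2, ← mul_pow]
  congr 1
  rw [Finset.mul_sum]
  refine Finset.sum_congr rfl fun P _ => ?_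
  rw [← sum_unity P.1.natDegree P.2.2.natDegree_pos n, ← Multiset.sum_map_mul_left]
  congr 1
  refine Multiset.map_congr rfl fun x _ => ?_
  rw [mul_pow]

end Pool.Agent.J4H10.BS
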