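import Mathlib

/-!
# Logarithmic derivatives of power series
-/

set_option autoImplicit false

open PowerSeries

namespace Pool.Agent.J4H10.BS

/-- logarithmic derivative -/
noncomputable def ld (A : PowerSeries ℂ) : PowerSeries ℂ := X * derivative ℂ A * A⁻¹

theorem ld_mul (A B : PowerSeries ℂ) (hA : constantCoeff A ≠ 0) (hB : constantCoeff B ≠ 0) :
    ld (A * B) = ld A + ld B := by
  unfold ld
  rw [Derivation.leibniz, smul_eq_mul, smul_eq_mul, PowerSeries.mul_inv_rev]
  have h1 := PowerSeries.mul_inv_cancel A hA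
  have h2 := PowerSeries.mul_inv_cancel B hB
  linear_combination X * derivative ℂ B * B⁻¹ * h1 + X * derivative ℂ A * A⁻¹ * h2

theorem ld_one : ld 1 = 0 := by
  unfold ld
  rw [Derivation.map_one_eq_zero, mul_zero, zero_mul]

theorem ld_prod {ι : Type*} (s : Finset ι) (f : ι → PowerSeries ℂ)
    (h : ∀ i ∈ s, constantCoeff (f i) ≠ 0) : ld (∏ i ∈ s, f i) = ∑ i ∈ s, ld (f i) := by
  classical
  induction s using Finset.induction_on with
  | empty => rw [Finset.prod_empty, Finset.sum_empty, ld_one]
  | insert a s ha ih =>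
    rw [Finset.prod_insert ha, Finset.sum_insert ha, ld_mul, ih]
    · exact fun i hi => h i (Finset.mem_insert_of_mem hi)
    · exact h a (Finset.mem_insert_self _ _)
    · rw [map_prod]
      exact Finset.prod_ne_zero_iff.2 fun i hi => h i (Finset.mem_insert_of_mem hi)

theorem ld_multiset (s : Multiset ℂ) (f : ℂ → PowerSeries ℂ)
    (h : ∀ i, constantCoeff (f i) ≠ 0) : ld (s.map f).prod = (s.map fun i => ld (f i)).sum := by
  induction s using Multiset.induction_on with
  | empty => simp [ld_one]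
  | cons a s ih =>
    rw [Multiset.map_cons, Multiset.prod_cons, Multiset.map_cons, Multiset.sum_cons, ld_mul, ih]
    · exact h a
    · rw [map_multiset_prod, Multiset.map_map]
      intro h00
      have h0 := Multiset.prod_eq_zero_iff.1 h00
      rw [Multiset.mem_map] at h0
      obtain ⟨i, _, hi⟩ := h0
      exact h i hi

theorem coeff_ld_one_sub (a : ℂ) (d : ℕ) (hd : 0 < d) (n : ℕ) (hn : 0 < n) :
    coeff n (ld (1 - C a * X ^ d)) = -(if d ∣ n then (d : ℂ) * a ^ (n / d) else 0) := by
  obtain ⟨B, hB⟩ : ∃ B : PowerSeries ℂ, B = PowerSeries.mk fun n =>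
      -(if d ∣ n ∧ 0 < n then (d : ℂ) * a ^ (n / d) else 0) := ⟨_, rfl⟩
  have hc : constantCoeff (1 - C a * X ^ d : PowerSeries ℂ) ≠ 0 := by
    rw [map_sub, map_one, map_mul, map_pow, constantCoeff_X, zero_pow hd.ne', mul_zero, sub_zero]
    exact one_ne_zero
  have h1 : B * (1 - C a * X ^ d) = X * derivative ℂ (1 - C a * X ^ d) := by
    ext m
    have h2 : B * (1 - C a * X ^ d) = B - C a * (X ^ d * B) := by ring
    have h3 : X * derivative ℂ (1 - C a * X ^ d : PowerSeries ℂ) = -(C (a * d) * X ^ d) := by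
      rw [map_sub, Derivation.map_one_eq_zero, zero_sub, Derivation.leibniz, Derivation.leibniz_pow]
      simp only [smul_eq_mul, nsmul_eq_mul]
      have h4 : derivative ℂ (C a : PowerSeries ℂ) = 0 := derivative_C
      have h5 : derivative ℂ (X : PowerSeries ℂ) = 1 := derivative_X
      rw [h4, h5]
      have h6 : (X : PowerSeries ℂ) ^ d = X * X ^ (d - 1) := by
        rw [← pow_succ', Nat.sub_add_cancel hd]
      have h7 : ((d : ℕ) : PowerSeries ℂ) = C (d : ℂ) := by
        rw [map_natCast]
      rw [h7, map_mul, h6]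
      ring
    rw [h2, h3, map_sub, coeff_C_mul, coeff_X_pow_mul', hB, coeff_mk, map_neg, coeff_C_mul,
      coeff_X_pow, coeff_mk]
    rcases Nat.lt_trichotomy m d with h | h | h
    · rw [if_neg (by rintro ⟨h8, h9⟩; exact absurd (Nat.le_of_dvd h9 h8) (by omega)),
        if_neg (by omega), if_neg (by omega)]
      simp
    · subst h
      rw [if_pos ⟨dvd_rfl, hd⟩, if_pos le_rfl, if_pos rfl, Nat.sub_self, if_neg (by
        rintro ⟨_, h9⟩; exact absurd h9 (lt_irrefl _)), Nat.div_self hd]
      ring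
    · rw [if_pos h.le, if_neg (show ¬ m = d by omega)]
      by_cases h8 : d ∣ m
      · have h9 : d ∣ m - d := Nat.dvd_sub h8 dvd_rfl
        rw [if_pos ⟨h8, by omega⟩, if_pos ⟨h9, by omega⟩]
        have h10 : m / d = (m - d) / d + 1 := by
          rw [Nat.div_eq_sub_div hd h.le]
        rw [h10, pow_succ]
        ring
      · have h9 : ¬ d ∣ m - d := fun h9 => h8 (by
          have := (Nat.dvd_add_iff_left (dvd_refl d)).1 h9
          rwa [Nat.sub_add_cancel h.le] at this)
        rw [if_neg (fun h => h8 h.1), if_neg (fun h => h9 h.1)]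
        simp
  have h2 : ld (1 - C a * X ^ d) = B := by
    unfold ld
    rw [← h1, mul_assoc, PowerSeries.mul_inv_cancel _ hc, mul_one]
  rw [h2, hB, coeff_mk]
  by_cases h : d ∣ n
  · rw [if_pos ⟨h, hn⟩, if_pos h]
  · rw [if_neg (fun h' => h h'.1), if_neg h]

theorem ld_congr (A B : PowerSeries ℂ) (hA : constantCoeff A ≠ 0) (hB : constantCoeff B ≠ 0)
    (n : ℕ) (h : ∀ m ≤ n, coeff m A = coeff m B) : coeff n (ld A) = coeff n (ld B) := by
  have h1 : (X : PowerSeries ℂ) ^ (n + 1) ∣ A - B := by
    rw [X_pow_dvd_iff]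
    intro m hm
    rw [map_sub, h m (by omega), sub_self]
  obtain ⟨R, hR⟩ := h1
  have h2 : derivative ℂ (A - B) = X ^ (n + 1) * derivative ℂ R + R * (((n + 1 : ℕ) : PowerSeries ℂ) * X ^ n) := by
    rw [hR, Derivation.leibniz, Derivation.leibniz_pow, derivative_X]
    simp only [smul_eq_mul, nsmul_eq_mul, mul_one, Nat.add_sub_cancel]
  rw [map_sub] at h2
  have h3 : (X : PowerSeries ℂ) ^ (n + 1) ∣ ld A - ld B := by
    have h4 := PowerSeries.mul_inv_cancel A hA
    have h5 := PowerSeries.mul_inv_cancel B hB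
    have h6 : ld A - ld B = X ^ (n + 1) * (A⁻¹ * B⁻¹ * (X * derivative ℂ R * B +
        R * ((n + 1 : ℕ) : PowerSeries ℂ) * B - X * derivative ℂ B * R)) := by
      unfold ld
      have h7 : X * derivative ℂ A = X * derivative ℂ B + X ^ (n + 1) * (X * derivative ℂ R) +
          X ^ (n + 1) * (R * ((n + 1 : ℕ) : PowerSeries ℂ)) := by
        have h8 : derivative ℂ A = derivative ℂ B + (X ^ (n + 1) * derivative ℂ R +
          R * (((n + 1 : ℕ) : PowerSeries ℂ) * X ^ n)) := by
          rw [← h2]; ring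
        rw [h8]
        ring
      have h8 : A = B + X ^ (n + 1) * R := by rw [← hR]; ring
      have h9 : X * derivative ℂ A * A⁻¹ - X * derivative ℂ B * B⁻¹ =
          A⁻¹ * B⁻¹ * (X * derivative ℂ A * B - X * derivative ℂ B * A) := by
        linear_combination (-(X * derivative ℂ A * A⁻¹)) * h5 + (X * derivative ℂ B * B⁻¹) * h4
      rw [h9]
      have h10 : X * derivative ℂ A * B - X * derivative ℂ B * A =
          X ^ (n + 1) * (X * derivative ℂ R * B +
            R * ((n + 1 : ℕ) : PowerSeries ℂ) * B - X * derivative ℂ B * R) := by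
        rw [h7]
        linear_combination (-(X * derivative ℂ B)) * h8
      rw [h10]
      ring
    rw [h6]
    exact dvd_mul_right _ _
  have h4 := X_pow_dvd_iff.1 h3 n (Nat.lt_succ_self n)
  rwa [map_sub, sub_eq_zero] at h4

end Pool.Agent.J4H10.BS
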