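import Pool.Agent.J4H10.JV.Main

/-!
# Inverse roots of the L-polynomial of a squarefree polynomial modulo `ℓ`
-/

set_option autoImplicit false
set_option linter.unusedSectionVars false
set_option linter.style.haveILetI false

open Polynomial

namespace Pool.Agent.J4H10.BS

open Pool.Agent.W313.Hyp Pool.Agent.W343.BSD Pool.Agent.J4H10.Tw Pool.Agent.J4H10.JV

variable {k : Type} [Field k] [Finite k]

/-- the coefficients of the L-polynomial are natural numbers modulo `ℓ` -/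
theorem coeff_nat {κ : Type} [Field κ] (ℓ : ℕ) [Fact ℓ.Prime] [CharP κ ℓ]
    (φ : AI →+* κ) (χ : MulChar k ℂ) (a : ℕ) (hχa : χ ^ ℓ ^ a = 1) (c : k) (D₀ : k[X]) :
    ∃ s : ℕ → AI, (∀ m, (s m : ℂ) = S (hf χ c D₀) m) ∧ s 0 = 1 ∧
      ∀ m, ∃ r : ℕ, φ (s m) = r := by
  letI : Fintype k := Fintype.ofFinite k
  let hA : k[X] → AI := fun g => ⟨hf χ c D₀ g, isIntegral_mulChar χ _⟩
  have hAcoe : ∀ g, ((hA g : AI) : ℂ) = hf χ c D₀ g := fun _ => rfl
  have hS : ∀ m, ((S hA m : AI) : ℂ) = S (hf χ c D₀) m := fun m =>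
    S_map (integralClosure ℤ ℂ).val.toRingHom hA m
  let hκ : k[X] → κ := fun g => φ (hA g)
  have hSκ : ∀ m, φ (S hA m) = S hκ m := fun m => S_map φ hA m
  have h01 : ∀ g, hκ g = 0 ∨ hκ g = 1 := by
    intro g
    obtain ⟨u, hu⟩ : ∃ u, u = (c * (-1) ^ D₀.natDegree) ^ g.natDegree * nrm D₀ g := ⟨_, rfl⟩
    have h1 : hf χ c D₀ g = χ u := by rw [hu]; rfl
    by_cases h0 : u = 0
    · left
      have h2 : hA g = 0 := by
        apply Subtype.ext
        rw [hAcoe, h1, h0, MulChar.map_zero]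
        rfl
      change φ (hA g) = 0
      rw [h2, map_zero]
    · right
      apply eq_one_of_pow ℓ _ a
      change φ (hA g) ^ ℓ ^ a = 1
      rw [← map_pow]
      have h2 : hA g ^ ℓ ^ a = 1 := by
        apply Subtype.ext
        rw [SubmonoidClass.coe_pow, hAcoe, h1]
        have h6 := MulChar.pow_apply_coe χ (ℓ ^ a) (Units.mk0 _ h0)
        rw [hχa, MulChar.one_apply_coe] at h6
        exact h6.symm
      rw [h2, map_one]
  refine ⟨S hA, hS, ?_, fun m => ?_⟩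
  · apply Subtype.ext
    rw [hS, S_zero (hf_CM χ c D₀)]
    rfl
  · rw [hSκ, S, finsum_mem_eq_finite_toFinset_sum _ (finite_mon m)]
    refine Finset.sum_induction _ (fun x : κ => ∃ r : ℕ, x = r) ?_ ⟨0, by simp⟩ fun g _ => ?_
    · rintro x y ⟨r, rfl⟩ ⟨r', rfl⟩
      exact ⟨r + r', by push_cast; rfl⟩
    · rcases h01 g with h | h
      · exact ⟨0, by rw [h]; simp⟩
      · exact ⟨1, by rw [h]; simp⟩

theorem root_gen {κ : Type} [Field κ] (ℓ : ℕ) [hℓ : Fact ℓ.Prime] [Algebra (ZMod ℓ) κ] [CharP κ ℓ]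
    (φ : AI →+* κ) (χ : MulChar k ℂ) (a : ℕ) (hχa : χ ^ ℓ ^ a = 1) (c : k)
    (D₀ : k[X]) (hn0 : 0 < D₀.natDegree) (t : ℂ) (ht : (Lp χ c D₀ 1).eval t = 0) :
    ∃ (g : AI) (f : (ZMod ℓ)[X]), (g : ℂ) * t = 1 ∧ f.Monic ∧ f.natDegree ≤ D₀.natDegree - 1 ∧
      aeval (φ g) f = 0 := by
  obtain ⟨s, hs, hs0, hs1⟩ := coeff_nat ℓ φ χ a hχa c D₀
  obtain ⟨n, hn⟩ : ∃ n, n = D₀.natDegree := ⟨_, rfl⟩
  rw [← hn] at hn0
  have hev : ∑ m ∈ Finset.range n, (s m : ℂ) * t ^ m = 0 := by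
    rw [← ht]
    unfold Lp
    rw [eval_finset_sum, ← hn]
    refine Finset.sum_congr rfl fun m _ => ?_
    rw [eval_mul, eval_C, eval_pow, eval_X, one_pow, mul_one, hs]
  have ht0 : t ≠ 0 := by
    rintro rfl
    rw [Finset.sum_eq_single_of_mem 0 (Finset.mem_range.2 hn0) (fun m _ hm => by
      rw [zero_pow hm, mul_zero]), hs0] at hev
    simp at hev
  have hev2 : ∑ m ∈ Finset.range n, (s m : ℂ) * t⁻¹ ^ (n - 1 - m) = 0 := by
    have h1 : ∑ m ∈ Finset.range n, (s m : ℂ) * t⁻¹ ^ (n - 1 - m) =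
        t⁻¹ ^ (n - 1) * ∑ m ∈ Finset.range n, (s m : ℂ) * t ^ m := by
      rw [Finset.mul_sum]
      refine Finset.sum_congr rfl fun m hm => ?_
      rw [Finset.mem_range] at hm
      have h2 : t⁻¹ ^ (n - 1) = t⁻¹ ^ (n - 1 - m) * t⁻¹ ^ m := by
        rw [← pow_add]
        congr 1
        omega
      have h3 : t⁻¹ ^ m * t ^ m = 1 := by rw [← mul_pow, inv_mul_cancel₀ ht0, one_pow]
      rw [h2]
      calc (s m : ℂ) * t⁻¹ ^ (n - 1 - m) = (s m : ℂ) * t⁻¹ ^ (n - 1 - m) * 1 := (mul_one _).symm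
        _ = _ := by rw [← h3]; ring
    rw [h1, hev, mul_zero]
  obtain ⟨R, hR⟩ : ∃ R : AI[X], R = ∑ m ∈ Finset.range n, C (s m) * X ^ (n - 1 - m) := ⟨_, rfl⟩
  have hRm : R.Monic := by
    apply monic_of_natDegree_le_of_coeff_eq_one (n - 1)
    · rw [hR]
      refine natDegree_sum_le_of_forall_le _ _ fun m _ => ?_
      exact (natDegree_C_mul_X_pow_le _ _).trans (Nat.sub_le _ _)
    · rw [hR, finsetSum_coeff, Finset.sum_eq_single_of_mem 0 (Finset.mem_range.2 hn0) (by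
        intro m hm hm0
        rw [Finset.mem_range] at hm
        rw [coeff_C_mul, coeff_X_pow, if_neg (by omega), mul_zero])]
      rw [coeff_C_mul, coeff_X_pow, if_pos (by omega), mul_one, hs0]
  have hRe : aeval t⁻¹ R = 0 := by
    rw [hR, map_sum, ← hev2]
    refine Finset.sum_congr rfl fun m _ => ?_
    rw [map_mul, aeval_C, map_pow, aeval_X]
    rfl
  have hint : IsIntegral ℤ t⁻¹ := isIntegral_trans (R := ℤ) (A := AI) t⁻¹ ⟨R, hRm, by
    rw [← aeval_def]; exact hRe⟩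
  obtain ⟨g, hg⟩ : ∃ g : AI, (g : ℂ) = t⁻¹ := ⟨⟨t⁻¹, hint⟩, rfl⟩
  choose r hr using hs1
  refine ⟨g, ∑ m ∈ Finset.range n, C (if m = 0 then 1 else (r m : ZMod ℓ)) * X ^ (n - 1 - m),
    by rw [hg, inv_mul_cancel₀ ht0], ?_, ?_, ?_⟩
  · apply monic_of_natDegree_le_of_coeff_eq_one (n - 1)
    · refine natDegree_sum_le_of_forall_le _ _ fun m _ => ?_
      exact (natDegree_C_mul_X_pow_le _ _).trans (Nat.sub_le _ _)
    · rw [finsetSum_coeff, Finset.sum_eq_single_of_mem 0 (Finset.mem_range.2 hn0) (by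
        intro m hm hm0
        rw [Finset.mem_range] at hm
        rw [coeff_C_mul, coeff_X_pow, if_neg (show ¬ n - 1 = n - 1 - m by omega), mul_zero])]
      rw [coeff_C_mul, coeff_X_pow, if_pos (show n - 1 = n - 1 - 0 by omega), mul_one, if_pos rfl]
  · rw [← hn]
    refine natDegree_sum_le_of_forall_le _ _ fun m _ => ?_
    exact (natDegree_C_mul_X_pow_le _ _).trans (Nat.sub_le _ _)
  · have hev3 : ∑ m ∈ Finset.range n, s m * g ^ (n - 1 - m) = 0 := by
      apply Subtype.ext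
      have h1 : ((∑ m ∈ Finset.range n, s m * g ^ (n - 1 - m) : AI) : ℂ) =
          ∑ m ∈ Finset.range n, (s m : ℂ) * t⁻¹ ^ (n - 1 - m) := by
        rw [← hg]
        push_cast
        rfl
      rw [h1, hev2]
      rfl
    have h1 := congrArg φ hev3
    rw [map_sum, map_zero] at h1
    rw [map_sum, ← h1]
    refine Finset.sum_congr rfl fun m _ => ?_
    rw [map_mul, map_mul, aeval_C, map_pow, map_pow, aeval_X]
    congr 1
    split_ifs with h0
    · rw [h0, hs0, map_one, map_one]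
    · rw [map_natCast, hr]

end Pool.Agent.J4H10.BS
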