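import Pool.Agent.J4H10.BS.Main
import Pool.Agent.J4H10.BS.Red2

/-!
# Zeta functions of products of hypersurfaces `z ^ m = h_1(y_1) ... h_t(y_t) D_1(x_1) ... D_r(x_r)`
-/

set_option autoImplicit false
set_option linter.unusedSectionVars false

open Polynomial

namespace Pool.Agent.J4H10.BS

open Pool.Agent.W313.Hyp Pool.Agent.W343.BSD Pool.Agent.J4H10.Tw Pool.Agent.J4H10.JV

section main

variable {k : Type} [Field k] [Finite k] {J S : Type} [Fintype J] [Fintype S]

theorem exists_w2 (χ : MulChar k ℂ) (D : k[X]) (hD : Squarefree D) (hdg : 0 < D.natDegree) (i : ℕ)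
    (hi : i ≠ 0 → χ ^ i ≠ 1) : ∃ (n : ℕ) (w : Fin n → ℂ),
      (∀ (K : Type) [Field K] [Algebra k K] [Fintype K], ∑ x : K, gf χ D K i x =
        sg i * ∑ e, w e ^ Module.finrank k K) ∧
      (i = 0 → ∀ e, w e = (Nat.card k : ℂ)) ∧
      (i ≠ 0 → ∀ e, ∃ t, (Lp (χ ^ i) D.leadingCoeff (C D.leadingCoeff⁻¹ * D) 1).eval t = 0 ∧
        w e = t⁻¹) := by
  by_cases h0 : i = 0
  · subst h0
    refine ⟨1, fun _ => (Nat.card k : ℂ), ?_, fun _ _ => rfl, fun h => absurd rfl h⟩
    intro K _ _ _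
    haveI : Module.Finite k K := Module.Finite.of_finite
    unfold gf sg
    simp only [if_true, Finset.sum_const, Finset.card_univ, nsmul_eq_mul, mul_one, one_mul,
      Fintype.card_fin, one_smul]
    rw [← Nat.card_eq_fintype_card, Module.natCard_eq_pow_finrank (K := k) (V := K)]
    push_cast
    ring
  · have hc0 : D.leadingCoeff ≠ 0 := leadingCoeff_ne_zero.2 hD.ne_zero
    obtain ⟨D₀, hD₀⟩ : ∃ D₀ : k[X], D₀ = C D.leadingCoeff⁻¹ * D := ⟨_, rfl⟩
    have hDD : D = C D.leadingCoeff * D₀ := by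
      rw [hD₀, ← mul_assoc, ← C_mul, mul_inv_cancel₀ hc0, C_1, one_mul]
    have hm : D₀.Monic := by
      rw [hD₀, mul_comm]
      exact monic_mul_leadingCoeff_inv hD.ne_zero
    have hsq : Squarefree D₀ := by
      have h1 := hD
      rw [hDD] at h1
      exact h1.of_mul_right
    have hdg0 : 0 < D₀.natDegree := by
      have h1 := congrArg natDegree hDD
      rw [natDegree_C_mul hc0] at h1
      rw [← h1]
      exact hdg
    rw [← hD₀]
    obtain ⟨n, w, hw, hs⟩ := exists_fn (Lp (χ ^ i) D.leadingCoeff D₀ 1).roots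
    refine ⟨n, fun e => (w e)⁻¹, ?_, fun h => absurd h h0, fun _ e => ⟨w e, ?_, rfl⟩⟩
    · intro K _ _ _
      have h1 := sum_char (K := K) (χ ^ i) (hi h0) D.leadingCoeff D₀ hm hsq hdg0
      rw [← hDD] at h1
      unfold gf sg
      simp only [if_neg h0]
      rw [h1, hs]
      ring
    · exact (mem_roots'.1 (hw e)).2

theorem main2 (ℓ b : ℕ) [hℓ : Fact ℓ.Prime] (σ : J → S) (a : S → ℕ)
    (ha : ∀ s, ℓ ^ a s ∣ Nat.card k - 1) (D : J → k[X])
    (P Q : Set J) (hQP : Q ⊆ P) (hσ : ∀ s, ∃ j ∈ Q, σ j = s)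
    (hP : ∀ j ∈ P, Irreducible (D j) ∧ Nat.Coprime (D j).natDegree ℓ)
    (hb : ∀ j ∉ P, Squarefree (D j) ∧ 0 < (D j).natDegree ∧ (D j).natDegree ≤ b + 1)
    (hQ : ∀ j ∈ Q, (∀ e ∈ Finset.Icc 1 b, Nat.Coprime (D j).natDegree (ℓ ^ e - 1)) ∧
      ∀ j' ∈ P, j' ≠ j → Nat.Coprime (D j).natDegree (D j').natDegree) :
    ∃ A B : Multiset ℂ,
      (∀ (K : Type) [Field K] [Algebra k K] [Finite K],
        (Nat.card (Pts σ (fun s => ℓ ^ a s) D K) : ℂ) = (Nat.card K : ℂ) ^ Fintype.card J +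
          (A.map fun x => x ^ Module.finrank k K).sum -
          (B.map fun x => x ^ Module.finrank k K).sum) ∧
      ∀ x ∈ A + B, IsIntegral ℤ x ∧ ∀ N : ℕ, (∀ j ∈ Q, Nat.Coprime N (D j).natDegree) →
        ∀ i : ℤ, x ^ N ≠ (Nat.card k : ℂ) ^ i := by
  classical
  letI : Fintype k := Fintype.ofFinite k
  have hD : ∀ j, Squarefree (D j) ∧ 0 < (D j).natDegree := by
    intro j
    by_cases hj : j ∈ P
    · exact ⟨(hP j hj).1.squarefree, (hP j hj).1.natDegree_pos⟩
    · exact ⟨(hb j hj).1, (hb j hj).2.1⟩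
  obtain ⟨m, hm⟩ : ∃ m : S → ℕ, m = fun s => ℓ ^ a s := ⟨_, rfl⟩
  have hm0 : ∀ s, 0 < m s := fun s => by rw [hm]; exact pow_pos hℓ.out.pos _
  have hmq : ∀ s, m s ∣ Nat.card k - 1 := fun s => by rw [hm]; exact ha s
  have hχ : ∀ s, ∃ χ : MulChar k ℂ, orderOf χ = m s := by
    intro s
    refine MulChar.exists_mulChar_orderOf k (n := m s) ?_
      (Complex.isPrimitiveRoot_exp (m s) (hm0 s).ne')
    rw [← Nat.card_eq_fintype_card]
    exact hmq s
  choose χ hχ using hχ
  have hχ1 : ∀ s i, i ≠ 0 → i < m s → χ s ^ i ≠ 1 := by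
    intro s i hi him h
    rw [← orderOf_dvd_iff_pow_eq_one, hχ] at h
    exact absurd (Nat.le_of_dvd (Nat.pos_of_ne_zero hi) h) (by omega)
  have hχa : ∀ s i, (χ s ^ i) ^ ℓ ^ a s = 1 := by
    intro s i
    rw [← pow_mul, mul_comm, pow_mul]
    have : ℓ ^ a s = orderOf (χ s) := by rw [hχ, hm]
    rw [this, pow_orderOf_eq_one, one_pow]
  have hex : ∀ (j : J) (i : ℕ), ∃ (n : ℕ) (w : Fin n → ℂ), i < m (σ j) →
      (∀ (K : Type) [Field K] [Algebra k K] [Fintype K], ∑ x : K, gf (χ (σ j)) (D j) K i x =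
        sg i * ∑ e, w e ^ Module.finrank k K) ∧
      (i = 0 → ∀ e, w e = (Nat.card k : ℂ)) ∧
      (i ≠ 0 → ∀ e, ∃ t, (Lp (χ (σ j) ^ i) (D j).leadingCoeff
        (C (D j).leadingCoeff⁻¹ * D j) 1).eval t = 0 ∧ w e = t⁻¹) := by
    intro j i
    by_cases hi : i < m (σ j)
    · obtain ⟨n, w, hw⟩ := exists_w2 (χ (σ j)) (D j) (hD j).1 (hD j).2 i (fun h => hχ1 _ i h hi)
      exact ⟨n, w, fun _ => hw⟩
    · exact ⟨0, fun _ => 0, fun h => absurd h hi⟩
  choose n w hw using hex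
  obtain ⟨I, hI⟩ : ∃ I : Finset (S → ℕ), I = Fintype.piFinset fun s => Finset.range (m s) :=
    ⟨_, rfl⟩
  have hI' : ∀ i ∈ I, ∀ s, i s < m s := by
    intro i hi s
    rw [hI, Fintype.mem_piFinset] at hi
    exact Finset.mem_range.1 (hi s)
  have h0I : (fun _ => 0 : S → ℕ) ∈ I := by
    rw [hI, Fintype.mem_piFinset]
    exact fun s => Finset.mem_range.2 (hm0 s)
  obtain ⟨ev, hev⟩ : ∃ ev : (i : S → ℕ) → (∀ j, Fin (n j (i (σ j)))) → ℂ,
      ev = fun i e => ∏ j, w j (i (σ j)) (e j) := ⟨_, rfl⟩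
  obtain ⟨ms, hms⟩ : ∃ ms : (S → ℕ) → Multiset ℂ, ms = fun i =>
      (Finset.univ : Finset (∀ j, Fin (n j (i (σ j))))).val.map (ev i) := ⟨_, rfl⟩
  obtain ⟨sgn, hsgn⟩ : ∃ sgn : (S → ℕ) → ℂ, sgn = fun i => ∏ j, sg (i (σ j)) := ⟨_, rfl⟩
  have hsgn1 : ∀ i, sgn i = 1 ∨ sgn i = -1 := by
    intro i
    have h1 : ∀ T : Finset J, (∏ j ∈ T, sg (i (σ j))) = 1 ∨ (∏ j ∈ T, sg (i (σ j))) = -1 := by
      intro T
      induction T using Finset.induction_on with
      | empty => left; rfl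
      | insert b T hb ih =>
        rw [Finset.prod_insert hb]
        unfold sg at ih ⊢
        rcases ih with h | h <;> rw [h] <;> split_ifs <;> simp
    rw [hsgn]
    exact h1 _
  have hsum : ∀ (T : Finset (S → ℕ)) (f : ℂ → ℂ), ((∑ i ∈ T, ms i).map f).sum =
      ∑ i ∈ T, ∑ e, f (ev i e) := by
    intro T f
    induction T using Finset.induction_on with
    | empty => simp
    | insert b T hb ih =>
      rw [Finset.sum_insert hb, Finset.sum_insert hb, Multiset.map_add, Multiset.sum_add, ih]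
      congr 1
      rw [hms, Multiset.map_map]
      rfl
  refine ⟨∑ i ∈ (I.erase fun _ => 0).filter (fun i => sgn i = 1), ms i,
    ∑ i ∈ (I.erase fun _ => 0).filter (fun i => ¬ sgn i = 1), ms i, ?_, ?_⟩
  · intro K _ _ _
    letI : Fintype K := Fintype.ofFinite K
    haveI : Module.Finite k K := Module.Finite.of_finite
    obtain ⟨d, hd⟩ : ∃ d, d = Module.finrank k K := ⟨_, rfl⟩
    rw [← hm, card_pts, hsum, hsum, ← hd]
    push_cast
    have h1 : ∀ x : J → K, ∏ s, (Nat.card {z : K // z ^ m s =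
        ∏ j with σ j = s, aeval (x j) (D j)} : ℂ) =
        ∑ i ∈ I, ∏ j, gf (χ (σ j)) (D j) K (i (σ j)) (x j) := by
      intro x
      have h2 : ∀ s, (Nat.card {z : K // z ^ m s =
          ∏ j with σ j = s, aeval (x j) (D j)} : ℂ) =
          ∑ i ∈ Finset.range (m s), ∏ j with σ j = s, gf (χ (σ j)) (D j) K i (x j) := by
        intro s
        rw [card_roots (m s) (χ s) (hχ s) (hm0 s) (hmq s), Finset.range_eq_Ico,
          Finset.sum_eq_sum_Ico_succ_bot (hm0 s)]
        congr 1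
        · exact (Finset.prod_eq_one fun j _ => by unfold gf; rw [if_pos rfl]).symm
        · refine Finset.sum_congr rfl fun i hi => ?_
          rw [Finset.mem_Ico] at hi
          rw [map_prod, map_prod]
          refine Finset.prod_congr rfl fun j hj => ?_
          rw [Finset.mem_filter] at hj
          unfold gf
          rw [if_neg (by omega), hj.2]
      rw [Finset.prod_congr rfl fun s _ => h2 s, Finset.prod_univ_sum, ← hI]
      refine Finset.sum_congr rfl fun i _ => ?_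
      rw [← Finset.prod_fiberwise (s := Finset.univ) (g := σ)]
      refine Finset.prod_congr rfl fun s _ => Finset.prod_congr rfl fun j hj => ?_
      rw [Finset.mem_filter] at hj
      rw [hj.2]
    rw [Finset.sum_congr rfl fun x _ => h1 x, Finset.sum_comm]
    have h2 : ∀ i ∈ I, ∑ x : J → K, ∏ j, gf (χ (σ j)) (D j) K (i (σ j)) (x j) =
        sgn i * ∑ e, ev i e ^ d := by
      intro i hi
      have h3 := Finset.prod_univ_sum (fun _ : J => (Finset.univ : Finset K))
        (fun j y => gf (χ (σ j)) (D j) K (i (σ j)) y)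
      rw [Fintype.piFinset_univ] at h3
      rw [← h3, Finset.prod_congr rfl fun j _ => (hw j (i (σ j)) (hI' i hi _)).1 K, ← hd,
        Finset.prod_mul_distrib, hsgn]
      congr 1
      rw [Finset.prod_univ_sum, Fintype.piFinset_univ, hev]
      refine Finset.sum_congr rfl fun e _ => ?_
      rw [Finset.prod_pow]
    have h3 : ∑ x : J → K, ∏ j, gf (χ (σ j)) (D j) K ((fun _ => 0 : S → ℕ) (σ j)) (x j) =
        (Nat.card K : ℂ) ^ Fintype.card J := by
      unfold gf
      simp only [if_true, Finset.prod_const_one, Finset.sum_const, nsmul_eq_mul, mul_one,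
        Finset.card_univ]
      rw [Fintype.card_fun, Nat.card_eq_fintype_card]
      push_cast
      rfl
    rw [← Finset.add_sum_erase _ _ h0I, h3]
    rw [Finset.sum_congr rfl fun i hi => h2 i (Finset.mem_of_mem_erase hi)]
    rw [← Finset.sum_filter_add_sum_filter_not (I.erase fun _ => 0) (fun i => sgn i = 1)
      (fun i => sgn i * ∑ e, ev i e ^ d)]
    have h4 : ∑ i ∈ (I.erase fun _ => 0).filter (fun i => sgn i = 1), sgn i * ∑ e, ev i e ^ d =
        ∑ i ∈ (I.erase fun _ => 0).filter (fun i => sgn i = 1), ∑ e, ev i e ^ d := by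
      refine Finset.sum_congr rfl fun i hi => ?_
      rw [(Finset.mem_filter.1 hi).2, one_mul]
    have h5 : ∑ i ∈ (I.erase fun _ => 0).filter (fun i => ¬ sgn i = 1),
        sgn i * ∑ e, ev i e ^ d =
        -∑ i ∈ (I.erase fun _ => 0).filter (fun i => ¬ sgn i = 1), ∑ e, ev i e ^ d := by
      rw [← Finset.sum_neg_distrib]
      refine Finset.sum_congr rfl fun i hi => ?_
      rw [(hsgn1 i).resolve_left (Finset.mem_filter.1 hi).2]
      ring
    rw [h4, h5]
    ring
  · intro x hx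
    rw [Finset.sum_filter_add_sum_filter_not, Multiset.mem_sum] at hx
    obtain ⟨i, hi, hx⟩ := hx
    rw [Finset.mem_erase] at hi
    rw [hms, Multiset.mem_map] at hx
    obtain ⟨e, _, rfl⟩ := hx
    obtain ⟨κ, hκ1, hκ2, ⟨φ⟩⟩ := exists_phi ℓ
    obtain ⟨s₀, hs₀⟩ : ∃ s, i s ≠ 0 := by
      by_contra h
      push Not at h
      exact hi.1 (funext h)
    have hqκ : (Nat.card k : κ) = 1 := card_one ℓ (χ s₀ ^ i s₀) (hχ1 s₀ _ hs₀ (hI' i hi.2 s₀))
      (a s₀) (hχa s₀ _)
    letI : Algebra (ZMod ℓ) κ := ZMod.algebra κ ℓ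
    obtain ⟨N₀, hN₀⟩ : ∃ N₀, N₀ = ∏ e ∈ Finset.Icc 1 b, (ℓ ^ e - 1) := ⟨_, rfl⟩
    obtain ⟨E, hE⟩ : ∃ E : J → ℕ, E = fun j => if j ∈ P then (D j).natDegree else N₀ := ⟨_, rfl⟩
    have hg : ∀ j, ∃ g : AI, (g : ℂ) = w j (i (σ j)) (e j) ∧
        (φ g ≠ 0 → φ g ^ E j = 1) ∧ (j ∈ P → i (σ j) ≠ 0 →
          φ g ^ (D j).natDegree = 1 ∧ φ g ≠ 1) := by
      intro j
      by_cases h0 : i (σ j) = 0
      · refine ⟨(Nat.card k : AI), ?_, ?_, fun _ h => absurd h0 h⟩
        · rw [(hw j _ (hI' i hi.2 _)).2.1 h0]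
          push_cast
          rfl
        · intro _
          rw [map_natCast, hqκ, one_pow]
      · obtain ⟨t, ht, hwt⟩ := (hw j _ (hI' i hi.2 _)).2.2 h0 (e j)
        have hc0 : (D j).leadingCoeff ≠ 0 := leadingCoeff_ne_zero.2 (hD j).1.ne_zero
        obtain ⟨D₀, hD₀⟩ : ∃ D₀ : k[X], D₀ = C (D j).leadingCoeff⁻¹ * D j := ⟨_, rfl⟩
        have hDD : D j = C (D j).leadingCoeff * D₀ := by
          rw [hD₀, ← mul_assoc, ← C_mul, mul_inv_cancel₀ hc0, C_1, one_mul]
        have hmon : D₀.Monic := by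
          rw [hD₀, mul_comm]
          exact monic_mul_leadingCoeff_inv (hD j).1.ne_zero
        have hnat : D₀.natDegree = (D j).natDegree := by
          have h1 := congrArg natDegree hDD
          rw [natDegree_C_mul hc0] at h1
          exact h1.symm
        rw [← hD₀] at ht
        by_cases hjP : j ∈ P
        · have hirr : Irreducible D₀ := by
            have h1 := (hP j hjP).1
            rw [hDD, irreducible_isUnit_mul (isUnit_C.2 (isUnit_iff_ne_zero.2 hc0))] at h1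
            exact h1
          obtain ⟨g, hg1, hg2, hg3⟩ := root_red ℓ φ (χ (σ j) ^ i (σ j))
            (hχ1 _ _ h0 (hI' i hi.2 _)) (a (σ j)) (hχa _ _) (D j).leadingCoeff hc0 D₀ hmon hirr
            (by rw [hnat]; exact (hP j hjP).2) t ht
          rw [hnat] at hg2
          refine ⟨g, ?_, fun _ => ?_, fun _ _ => ⟨hg2, hg3⟩⟩
          · rw [hwt]
            exact eq_inv_of_mul_eq_one_left hg1
          · rw [hE]
            simp only [if_pos hjP]
            exact hg2
        · obtain ⟨g, f, hg1, hf1, hf2, hf3⟩ := root_gen ℓ φ (χ (σ j) ^ i (σ j)) (a (σ j))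
            (hχa _ _) (D j).leadingCoeff D₀ (by rw [hnat]; exact (hD j).2) t ht
          refine ⟨g, ?_, fun hne => ?_, fun h => absurd h hjP⟩
          · rw [hwt]
            exact eq_inv_of_mul_eq_one_left hg1
          · rw [hE]
            simp only [if_neg hjP]
            rw [hN₀]
            refine pow_eq_one_of_zmod ℓ f hf1 b ?_ _ hne hf3
            have := (hb j hjP).2.2
            omega
    choose g hg1 hg2 hg3 using hg
    have hevg : ev i e = ((∏ j, g j : AI) : ℂ) := by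
      rw [hev]
      push_cast
      exact Finset.prod_congr rfl fun j _ => (hg1 j).symm
    rw [hevg]
    refine ⟨(∏ j, g j : AI).2, fun N hN z hz => ?_⟩
    have hq0 : (Nat.card k : ℂ) ≠ 0 := by
      rw [Nat.cast_ne_zero]
      exact Nat.card_pos.ne'
    obtain ⟨u, v, huv⟩ : ∃ u v : ℕ, z = (v : ℤ) - u := by
      rcases le_total 0 z with h | h
      · exact ⟨0, z.toNat, by rw [Int.toNat_of_nonneg h]; simp⟩
      · exact ⟨(-z).toNat, 0, by rw [Int.toNat_of_nonneg (by omega)]; simp⟩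
    have h1 : (∏ j, g j) ^ N * (Nat.card k : AI) ^ u = (Nat.card k : AI) ^ v := by
      apply Subtype.ext
      have h2 : ((∏ j, g j : AI) : ℂ) ^ N * (Nat.card k : ℂ) ^ u = (Nat.card k : ℂ) ^ v := by
        rw [hz, huv, zpow_sub₀ hq0, zpow_natCast, zpow_natCast,
          div_mul_cancel₀ _ (pow_ne_zero _ hq0)]
      exact_mod_cast h2
    have h2 := congrArg φ h1
    rw [map_mul, map_pow, map_pow, map_pow, map_natCast, hqκ, one_pow, one_pow, mul_one,
      map_prod] at h2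
    obtain ⟨j₀, hj₀Q, hj₀⟩ := hσ s₀
    have hj₀P : j₀ ∈ P := hQP hj₀Q
    obtain ⟨h00, hne⟩ := hg3 j₀ hj₀P (by rw [hj₀]; exact hs₀)
    have hN0 : N ≠ 0 := by
      rintro rfl
      have h3 := hN j₀ hj₀Q
      rw [Nat.coprime_zero_left] at h3
      rw [h3, pow_one] at h00
      exact hne h00
    have hnz : ∀ j, φ (g j) ≠ 0 := by
      intro j h3
      rw [Finset.prod_eq_zero (Finset.mem_univ j) h3, zero_pow hN0] at h2
      exact zero_ne_one h2
    obtain ⟨M, hM⟩ : ∃ M, M = ∏ j ∈ Finset.univ.erase j₀, E j := ⟨_, rfl⟩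
    have h3 := congrArg (· ^ M) h2
    simp only [one_pow] at h3
    rw [← Finset.mul_prod_erase Finset.univ _ (Finset.mem_univ j₀), mul_pow, mul_pow,
      ← Finset.prod_pow, ← Finset.prod_pow] at h3
    have h4 : ∏ j ∈ Finset.univ.erase j₀, (φ (g j) ^ N) ^ M = 1 := by
      refine Finset.prod_eq_one fun j hj => ?_
      obtain ⟨r, hr⟩ := Finset.dvd_prod_of_mem E hj
      rw [← hM] at hr
      rw [← pow_mul, mul_comm N, hr, mul_assoc, pow_mul, hg2 j (hnz j), one_pow]
    rw [h4, mul_one, ← pow_mul] at h3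
    have hcop : Nat.Coprime (N * M) (D j₀).natDegree := by
      apply Nat.Coprime.mul_left (hN j₀ hj₀Q)
      rw [hM]
      apply Nat.Coprime.prod_left
      intro j hj
      rw [hE]
      simp only
      split_ifs with hjP
      · exact ((hQ j₀ hj₀Q).2 j hjP (Finset.ne_of_mem_erase hj)).symm
      · rw [hN₀]
        exact Nat.Coprime.prod_left fun e he => ((hQ j₀ hj₀Q).1 e he).symm
    have h5 : orderOf (φ (g j₀)) ∣ Nat.gcd (N * M) (D j₀).natDegree :=
      Nat.dvd_gcd (orderOf_dvd_of_pow_eq_one h3) (orderOf_dvd_of_pow_eq_one h00)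
    rw [hcop.gcd_eq_one, Nat.dvd_one, orderOf_eq_one_iff] at h5
    exact hne h5

end main

end Pool.Agent.J4H10.BS
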