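import Pool.Agent.J4H10.BS.Part

/-!
# Zeta functions of products of hypersurfaces `z ^ m = D_1(x_1) ... D_r(x_r)`, arbitrary polynomials
-/

set_option autoImplicit false
set_option linter.unusedSectionVars false

open Polynomial

namespace Pool.Agent.J4H10.BS

open Pool.Agent.W313.Hyp Pool.Agent.W343.BSD Pool.Agent.J4H10.Tw Pool.Agent.J4H10.JV

variable {k : Type} [Field k] [Finite k] {J S : Type} [Fintype J] [Fintype S]

theorem main4 (ℓ : ℕ) [hℓ : Fact ℓ.Prime] (σ : J → S) (a : S → ℕ)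
    (ha : ∀ s, ℓ ^ a s ∣ Nat.card k - 1) (D : J → k[X]) (hD : ∀ j, 0 < (D j).natDegree)
    (Q : Set J) (hσ : ∀ s, ∃ j ∈ Q, σ j = s)
    (hQ : ∀ j ∈ Q, Irreducible (D j) ∧ Nat.Coprime (D j).natDegree ℓ ∧
      ∀ j', j' ≠ j → ∀ π : k[X], Irreducible π → π ∣ D j' →
        Nat.Coprime (D j).natDegree π.natDegree) :
    ∃ A B : Multiset ℂ,
      (∀ (K : Type) [Field K] [Algebra k K] [Finite K],
        (Nat.card (Pts σ (fun s => ℓ ^ a s) D K) : ℂ) = (Nat.card K : ℂ) ^ Fintype.card J +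
          (A.map fun x => x ^ Module.finrank k K).sum -
          (B.map fun x => x ^ Module.finrank k K).sum) ∧
      ∀ x ∈ A + B, IsIntegral ℤ x ∧ ∀ N : ℕ, (∀ j ∈ Q, Nat.Coprime N (D j).natDegree) →
        ∀ i : ℤ, x ^ N ≠ (Nat.card k : ℂ) ^ i := by
  classical
  letI : Fintype k := Fintype.ofFinite k
  obtain ⟨m, hm⟩ : ∃ m : S → ℕ, m = fun s => ℓ ^ a s := ⟨_, rfl⟩
  have hm0 : ∀ s, 0 < m s := fun s => by rw [hm]; exact pow_pos hℓ.out.pos _
  have hmq : ∀ s, m s ∣ Nat.card k - 1 := fun s => by rw [hm]; exact ha s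
  have hχ : ∀ s, ∃ χ : MulChar k ℂ, orderOf χ = m s := by
    intro s
    refine MulChar.exists_mulChar_orderOf k (n := m s) ?_
      (Complex.isPrimitiveRoot_exp (m s) (hm0 s).ne')
    rw [← Nat.card_eq_fintype_card]
    exact hmq s
  choose χ hχ using hχ
  have hχ1 : ∀ s i, i ≠ 0 → i < m s → χ s ^ i ≠ 1 := by
    intro s i hi him h
    rw [← orderOf_dvd_iff_pow_eq_one, hχ] at h
    exact absurd (Nat.le_of_dvd (Nat.pos_of_ne_zero hi) h) (by omega)
  have hχa : ∀ s i, (χ s ^ i) ^ ℓ ^ a s = 1 := by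
    intro s i
    rw [← pow_mul, mul_comm, pow_mul]
    have : ℓ ^ a s = orderOf (χ s) := by rw [hχ, hm]
    rw [this, pow_orderOf_eq_one, one_pow]
  obtain ⟨κ, hκ1, hκ2, ⟨φ⟩⟩ := exists_phi ℓ
  have hex : ∀ (j : J) (i : ℕ), ∃ (n : ℕ) (w : Fin n → ℂ × ℂ), i < m (σ j) →
      (∀ (K : Type) [Field K] [Algebra k K] [Fintype K], ∑ x : K, gf (χ (σ j)) (D j) K i x =
        ∑ e, (w e).1 * (w e).2 ^ Module.finrank k K) ∧
      (∀ e, (w e).1 = 1 ∨ (w e).1 = -1) ∧ ∀ e, Info φ ℓ (D j) i (w e).2 := by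
    intro j i
    by_cases hi : i < m (σ j)
    · obtain ⟨n, w, hw⟩ := part ℓ φ (χ (σ j)) (D j) (hD j) i (fun h => hχ1 _ i h hi) (a (σ j))
        (hχa _ _)
      exact ⟨n, w, fun _ => hw⟩
    · exact ⟨0, fun _ => 0, fun h => absurd h hi⟩
  choose n w hw using hex
  obtain ⟨I, hI⟩ : ∃ I : Finset (S → ℕ), I = Fintype.piFinset fun s => Finset.range (m s) :=
    ⟨_, rfl⟩
  have hI' : ∀ i ∈ I, ∀ s, i s < m s := by
    intro i hi s
    rw [hI, Fintype.mem_piFinset] at hi
    exact Finset.mem_range.1 (hi s)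
  have h0I : (fun _ => 0 : S → ℕ) ∈ I := by
    rw [hI, Fintype.mem_piFinset]
    exact fun s => Finset.mem_range.2 (hm0 s)
  obtain ⟨ev, hev⟩ : ∃ ev : (i : S → ℕ) → (∀ j, Fin (n j (i (σ j)))) → ℂ,
      ev = fun i e => ∏ j, (w j (i (σ j)) (e j)).2 := ⟨_, rfl⟩
  obtain ⟨sgn, hsgn⟩ : ∃ sgn : (i : S → ℕ) → (∀ j, Fin (n j (i (σ j)))) → ℂ,
      sgn = fun i e => ∏ j, (w j (i (σ j)) (e j)).1 := ⟨_, rfl⟩
  have hsgn1 : ∀ i ∈ I, ∀ e, sgn i e = 1 ∨ sgn i e = -1 := by
    intro i hi e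
    have h1 : ∀ T : Finset J, (∏ j ∈ T, (w j (i (σ j)) (e j)).1) = 1 ∨
        (∏ j ∈ T, (w j (i (σ j)) (e j)).1) = -1 := by
      intro T
      induction T using Finset.induction_on with
      | empty => left; rfl
      | insert b T hb ih =>
        rw [Finset.prod_insert hb]
        rcases ih with h | h <;> rcases (hw b _ (hI' i hi _)).2.1 (e b) with h' | h' <;>
          rw [h, h'] <;> simp
    rw [hsgn]
    exact h1 _
  obtain ⟨pl, hpl⟩ : ∃ pl : (S → ℕ) → Multiset ℂ, pl = fun i =>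
      ((Finset.univ : Finset (∀ j, Fin (n j (i (σ j))))).filter
        fun e => sgn i e = 1).val.map (ev i) := ⟨_, rfl⟩
  obtain ⟨mi, hmi⟩ : ∃ mi : (S → ℕ) → Multiset ℂ, mi = fun i =>
      ((Finset.univ : Finset (∀ j, Fin (n j (i (σ j))))).filter
        fun e => ¬ sgn i e = 1).val.map (ev i) := ⟨_, rfl⟩
  refine ⟨∑ i ∈ I.erase fun _ => 0, pl i, ∑ i ∈ I.erase fun _ => 0, mi i, ?_, ?_⟩
  · intro K _ _ _
    letI : Fintype K := Fintype.ofFinite K
    haveI : Module.Finite k K := Module.Finite.of_finite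
    obtain ⟨d, hd⟩ : ∃ d, d = Module.finrank k K := ⟨_, rfl⟩
    rw [← hm, card_pts, map_sum_sum, map_sum_sum, ← hd]
    push_cast
    have h1 : ∀ x : J → K, ∏ s, (Nat.card {z : K // z ^ m s =
        ∏ j with σ j = s, aeval (x j) (D j)} : ℂ) =
        ∑ i ∈ I, ∏ j, gf (χ (σ j)) (D j) K (i (σ j)) (x j) := by
      intro x
      have h2 : ∀ s, (Nat.card {z : K // z ^ m s =
          ∏ j with σ j = s, aeval (x j) (D j)} : ℂ) =
          ∑ i ∈ Finset.range (m s), ∏ j with σ j = s, gf (χ (σ j)) (D j) K i (x j) := by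
        intro s
        rw [card_roots (m s) (χ s) (hχ s) (hm0 s) (hmq s), Finset.range_eq_Ico,
          Finset.sum_eq_sum_Ico_succ_bot (hm0 s)]
        congr 1
        · exact (Finset.prod_eq_one fun j _ => by unfold gf; rw [if_pos rfl]).symm
        · refine Finset.sum_congr rfl fun i hi => ?_
          rw [Finset.mem_Ico] at hi
          rw [map_prod, map_prod]
          refine Finset.prod_congr rfl fun j hj => ?_
          rw [Finset.mem_filter] at hj
          unfold gf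
          rw [if_neg (by omega), hj.2]
      rw [Finset.prod_congr rfl fun s _ => h2 s, Finset.prod_univ_sum, ← hI]
      refine Finset.sum_congr rfl fun i _ => ?_
      rw [← Finset.prod_fiberwise (s := Finset.univ) (g := σ)]
      refine Finset.prod_congr rfl fun s _ => Finset.prod_congr rfl fun j hj => ?_
      rw [Finset.mem_filter] at hj
      rw [hj.2]
    rw [Finset.sum_congr rfl fun x _ => h1 x, Finset.sum_comm]
    have h2 : ∀ i ∈ I, ∑ x : J → K, ∏ j, gf (χ (σ j)) (D j) K (i (σ j)) (x j) =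
        ((pl i).map fun x => x ^ d).sum - ((mi i).map fun x => x ^ d).sum := by
      intro i hi
      have h3 := Finset.prod_univ_sum (fun _ : J => (Finset.univ : Finset K))
        (fun j y => gf (χ (σ j)) (D j) K (i (σ j)) y)
      rw [Fintype.piFinset_univ] at h3
      rw [← h3, Finset.prod_congr rfl fun j _ => (hw j (i (σ j)) (hI' i hi _)).1 K, ← hd,
        Finset.prod_univ_sum, Fintype.piFinset_univ]
      have h4 : ∀ e : ∀ j, Fin (n j (i (σ j))), ∏ j, (w j (i (σ j)) (e j)).1 *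
          (w j (i (σ j)) (e j)).2 ^ d = sgn i e * ev i e ^ d := by
        intro e
        rw [Finset.prod_mul_distrib, hsgn, hev, Finset.prod_pow]
      rw [Finset.sum_congr rfl fun e _ => h4 e,
        ← Finset.sum_filter_add_sum_filter_not Finset.univ (fun e => sgn i e = 1)]
      have h5 : ∑ e ∈ Finset.univ.filter (fun e => sgn i e = 1), sgn i e * ev i e ^ d =
          ((pl i).map fun x => x ^ d).sum := by
        rw [hpl, Multiset.map_map]
        refine Finset.sum_congr rfl fun e he => ?_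
        rw [(Finset.mem_filter.1 he).2, one_mul]
        rfl
      have h6 : ∑ e ∈ Finset.univ.filter (fun e => ¬ sgn i e = 1), sgn i e * ev i e ^ d =
          -((mi i).map fun x => x ^ d).sum := by
        rw [hmi, Multiset.map_map]
        change _ = -∑ e ∈ Finset.univ.filter (fun e => ¬ sgn i e = 1), ev i e ^ d
        rw [← Finset.sum_neg_distrib]
        refine Finset.sum_congr rfl fun e he => ?_
        rw [(hsgn1 i hi e).resolve_left (Finset.mem_filter.1 he).2]
        ring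
      rw [h5, h6]
      ring
    have h3 : ∑ x : J → K, ∏ j, gf (χ (σ j)) (D j) K ((fun _ => 0 : S → ℕ) (σ j)) (x j) =
        (Nat.card K : ℂ) ^ Fintype.card J := by
      unfold gf
      simp only [if_true, Finset.prod_const_one, Finset.sum_const, nsmul_eq_mul, mul_one,
        Finset.card_univ]
      rw [Fintype.card_fun, Nat.card_eq_fintype_card]
      push_cast
      rfl
    rw [← Finset.add_sum_erase _ _ h0I, h3]
    rw [Finset.sum_congr rfl fun i hi => h2 i (Finset.mem_of_mem_erase hi),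
      Finset.sum_sub_distrib]
    ring
  · intro x hx
    have hx' : ∃ i ∈ I.erase fun _ => 0, ∃ e, ev i e = x := by
      rw [Multiset.mem_add, Multiset.mem_sum, Multiset.mem_sum] at hx
      rcases hx with ⟨i, hi, hx⟩ | ⟨i, hi, hx⟩
      · rw [hpl, Multiset.mem_map] at hx
        obtain ⟨e, _, he⟩ := hx
        exact ⟨i, hi, e, he⟩
      · rw [hmi, Multiset.mem_map] at hx
        obtain ⟨e, _, he⟩ := hx
        exact ⟨i, hi, e, he⟩
    obtain ⟨i, hi, e, rfl⟩ := hx'
    rw [Finset.mem_erase] at hi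
    obtain ⟨s₀, hs₀⟩ : ∃ s, i s ≠ 0 := by
      by_contra h
      push Not at h
      exact hi.1 (funext h)
    have hqκ : (Nat.card k : κ) = 1 := card_one ℓ (χ s₀ ^ i s₀) (hχ1 s₀ _ hs₀ (hI' i hi.2 s₀))
      (a s₀) (hχa s₀ _)
    have hg : ∀ j, ∃ (g : AI) (E : ℕ), (g : ℂ) = (w j (i (σ j)) (e j)).2 ∧
        (φ g ≠ 0 → φ g ^ E = 1) ∧
        (E = 1 ∨ ∃ π : k[X], Irreducible π ∧ π ∣ D j ∧ π.natDegree = E) ∧
        (i (σ j) ≠ 0 → Irreducible (D j) → Nat.Coprime (D j).natDegree ℓ →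
          φ g ^ (D j).natDegree = 1 ∧ φ g ≠ 1) := fun j =>
      (hw j _ (hI' i hi.2 _)).2.2 (e j) hqκ
    choose g E hg1 hg2 hE hg3 using hg
    have hevg : ev i e = ((∏ j, g j : AI) : ℂ) := by
      rw [hev]
      push_cast
      exact Finset.prod_congr rfl fun j _ => (hg1 j).symm
    rw [hevg]
    refine ⟨(∏ j, g j : AI).2, fun N hN z hz => ?_⟩
    have hq0 : (Nat.card k : ℂ) ≠ 0 := by
      rw [Nat.cast_ne_zero]
      exact Nat.card_pos.ne'
    obtain ⟨u, v, huv⟩ : ∃ u v : ℕ, z = (v : ℤ) - u := by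
      rcases le_total 0 z with h | h
      · exact ⟨0, z.toNat, by rw [Int.toNat_of_nonneg h]; simp⟩
      · exact ⟨(-z).toNat, 0, by rw [Int.toNat_of_nonneg (by omega)]; simp⟩
    have h1 : (∏ j, g j) ^ N * (Nat.card k : AI) ^ u = (Nat.card k : AI) ^ v := by
      apply Subtype.ext
      have h2 : ((∏ j, g j : AI) : ℂ) ^ N * (Nat.card k : ℂ) ^ u = (Nat.card k : ℂ) ^ v := by
        rw [hz, huv, zpow_sub₀ hq0, zpow_natCast, zpow_natCast,
          div_mul_cancel₀ _ (pow_ne_zero _ hq0)]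
      exact_mod_cast h2
    have h2 := congrArg φ h1
    rw [map_mul, map_pow, map_pow, map_pow, map_natCast, hqκ, one_pow, one_pow, mul_one,
      map_prod] at h2
    obtain ⟨j₀, hj₀Q, hj₀⟩ := hσ s₀
    obtain ⟨h00, hne⟩ := hg3 j₀ (by rw [hj₀]; exact hs₀) (hQ j₀ hj₀Q).1 (hQ j₀ hj₀Q).2.1
    have hN0 : N ≠ 0 := by
      rintro rfl
      have h3 := hN j₀ hj₀Q
      rw [Nat.coprime_zero_left] at h3
      rw [h3, pow_one] at h00
      exact hne h00
    have hnz : ∀ j, φ (g j) ≠ 0 := by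
      intro j h3
      rw [Finset.prod_eq_zero (Finset.mem_univ j) h3, zero_pow hN0] at h2
      exact zero_ne_one h2
    obtain ⟨M, hM⟩ : ∃ M, M = ∏ j ∈ Finset.univ.erase j₀, E j := ⟨_, rfl⟩
    have h3 := congrArg (· ^ M) h2
    simp only [one_pow] at h3
    rw [← Finset.mul_prod_erase Finset.univ _ (Finset.mem_univ j₀), mul_pow, mul_pow,
      ← Finset.prod_pow, ← Finset.prod_pow] at h3
    have h4 : ∏ j ∈ Finset.univ.erase j₀, (φ (g j) ^ N) ^ M = 1 := by
      refine Finset.prod_eq_one fun j hj => ?_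
      obtain ⟨r, hr⟩ := Finset.dvd_prod_of_mem E hj
      rw [← hM] at hr
      rw [← pow_mul, mul_comm N, hr, mul_assoc, pow_mul, hg2 j (hnz j), one_pow]
    rw [h4, mul_one, ← pow_mul] at h3
    have hcop : Nat.Coprime (N * M) (D j₀).natDegree := by
      apply Nat.Coprime.mul_left (hN j₀ hj₀Q)
      rw [hM]
      apply Nat.Coprime.prod_left
      intro j hj
      rcases hE j with h | ⟨π, hπ1, hπ2, hπ3⟩
      · rw [h]
        exact Nat.coprime_one_left _
      · rw [← hπ3]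
        exact ((hQ j₀ hj₀Q).2.2 j (Finset.ne_of_mem_erase hj) π hπ1 hπ2).symm
    have h5 : orderOf (φ (g j₀)) ∣ Nat.gcd (N * M) (D j₀).natDegree :=
      Nat.dvd_gcd (orderOf_dvd_of_pow_eq_one h3) (orderOf_dvd_of_pow_eq_one h00)
    rw [hcop.gcd_eq_one, Nat.dvd_one, orderOf_eq_one_iff] at h5
    exact hne h5

end Pool.Agent.J4H10.BS
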