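import Pool.Agent.J4H10.BS.Gen
import Pool.Agent.J4H10.BS.Main

/-!
# Signed exponential sums of one polynomial
-/

set_option autoImplicit false
set_option linter.unusedSectionVars false

open Polynomial

namespace Pool.Agent.J4H10.BS

open Pool.Agent.W313.Hyp Pool.Agent.W343.BSD Pool.Agent.J4H10.Tw Pool.Agent.J4H10.JV

variable {k : Type} [Field k] [Finite k]

theorem map_sum_sum {ι α : Type} (T : Finset ι) (t : ι → Multiset α) (f : α → ℂ) :
    ((∑ i ∈ T, t i).map f).sum = ∑ i ∈ T, ((t i).map f).sum := by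
  classical
  induction T using Finset.induction_on with
  | empty => simp
  | insert b T hb ih =>
    rw [Finset.sum_insert hb, Finset.sum_insert hb, Multiset.map_add, Multiset.sum_add, ih]

theorem neg_sum (s : Multiset ℂ) (f g : ℂ → ℂ) (h : ∀ x, g x = -f x) :
    -(s.map f).sum = (s.map g).sum := by
  induction s using Multiset.induction_on with
  | empty => simp
  | cons a s ih =>
    rw [Multiset.map_cons, Multiset.sum_cons, Multiset.map_cons, Multiset.sum_cons, ← ih, h]
    ring

/-- what is known on an eigenvalue -/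
def Info {κ : Type} [Field κ] (φ : AI →+* κ) (ℓ : ℕ) (D : k[X]) (i : ℕ) (x : ℂ) : Prop :=
  (Nat.card k : κ) = 1 → ∃ (g : AI) (E : ℕ), (g : ℂ) = x ∧ (φ g ≠ 0 → φ g ^ E = 1) ∧
    (E = 1 ∨ ∃ π : k[X], Irreducible π ∧ π ∣ D ∧ π.natDegree = E) ∧
    (i ≠ 0 → Irreducible D → Nat.Coprime D.natDegree ℓ → φ g ^ D.natDegree = 1 ∧ φ g ≠ 1)

theorem part {κ : Type} [Field κ] (ℓ : ℕ) [hℓ : Fact ℓ.Prime] [CharP κ ℓ] (φ : AI →+* κ)
    (χ : MulChar k ℂ) (D : k[X]) (hdg : 0 < D.natDegree) (i : ℕ) (hi : i ≠ 0 → χ ^ i ≠ 1) (a : ℕ)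
    (hχa : (χ ^ i) ^ ℓ ^ a = 1) : ∃ (n : ℕ) (w : Fin n → ℂ × ℂ),
      (∀ (K : Type) [Field K] [Algebra k K] [Fintype K], ∑ x : K, gf χ D K i x =
        ∑ e, (w e).1 * (w e).2 ^ Module.finrank k K) ∧
      (∀ e, (w e).1 = 1 ∨ (w e).1 = -1) ∧ ∀ e, Info φ ℓ D i (w e).2 := by
  classical
  by_cases h0 : i = 0
  · subst h0
    refine ⟨1, fun _ => (1, (Nat.card k : ℂ)), ?_, fun _ => Or.inl rfl, fun _ hq => ?_⟩
    · intro K _ _ _
      haveI : Module.Finite k K := Module.Finite.of_finite
      unfold gf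
      simp only [if_true, Finset.sum_const, Finset.card_univ, nsmul_eq_mul, mul_one, one_mul,
        Fintype.card_fin, one_smul]
      rw [← Nat.card_eq_fintype_card, Module.natCard_eq_pow_finrank (K := k) (V := K)]
      push_cast
      ring
    · refine ⟨(Nat.card k : AI), 1, ?_, ?_, Or.inl rfl, fun h => absurd rfl h⟩
      · push_cast
        rfl
      · intro _
        rw [map_natCast, hq, one_pow]
  · have hDne : D ≠ 0 := by
      rintro rfl
      simp at hdg
    have hc0 : D.leadingCoeff ≠ 0 := leadingCoeff_ne_zero.2 hDne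
    obtain ⟨D₀, hD₀⟩ : ∃ D₀ : k[X], D₀ = C D.leadingCoeff⁻¹ * D := ⟨_, rfl⟩
    have hDD : D = C D.leadingCoeff * D₀ := by
      rw [hD₀, ← mul_assoc, ← C_mul, mul_inv_cancel₀ hc0, C_1, one_mul]
    have hm : D₀.Monic := by
      rw [hD₀, mul_comm]
      exact monic_mul_leadingCoeff_inv hDne
    have hnat : D₀.natDegree = D.natDegree := by
      have h1 := congrArg natDegree hDD
      rw [natDegree_C_mul hc0] at h1
      exact h1.symm
    have hirr : Irreducible D → Irreducible D₀ := by
      intro h1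
      rw [hDD, irreducible_isUnit_mul (isUnit_C.2 (isUnit_iff_ne_zero.2 hc0))] at h1
      exact h1
    obtain ⟨ψ, hψ⟩ : ∃ ψ, ψ = χ ^ i := ⟨_, rfl⟩
    have hψ1 : ψ ≠ 1 := by rw [hψ]; exact hi h0
    have hψa : ψ ^ ℓ ^ a = 1 := by rw [hψ]; exact hχa
    by_cases htriv : ∀ u : AdjoinRoot D₀, IsUnit u → ψ (Algebra.norm k u) = 1
    · have hfin : {P : MI k | P.1 ∣ D₀}.Finite := by
        apply (finite_deg_le (F := k) D₀.natDegree).subset
        intro P hP
        exact natDegree_le_of_dvd hP hm.ne_zero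
      obtain ⟨Z, hZ⟩ : ∃ Z : Finset (MI k), ∀ P, P ∈ Z ↔ P.1 ∣ D₀ :=
        ⟨hfin.toFinset, fun P => by rw [Set.Finite.mem_toFinset]; rfl⟩
      obtain ⟨n, w, hw, hs⟩ := exists_fn' (({((1 : ℂ), ψ D.leadingCoeff * (Nat.card k : ℂ))} :
        Multiset (ℂ × ℂ)) + ∑ P ∈ Z, (nthRoots P.1.natDegree (1 : ℂ)).map
          fun x => ((-1 : ℂ), ψ D.leadingCoeff * x))
      have hcφ : ∃ c : AI, (c : ℂ) = ψ D.leadingCoeff ∧ φ c = 1 := by
        refine ⟨⟨ψ D.leadingCoeff, isIntegral_mulChar ψ _⟩, rfl, ?_⟩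
        apply eq_one_of_pow ℓ _ a
        rw [← map_pow]
        have h2 : (⟨ψ D.leadingCoeff, isIntegral_mulChar ψ _⟩ : AI) ^ ℓ ^ a = 1 := by
          apply Subtype.ext
          rw [SubmonoidClass.coe_pow]
          have h6 := MulChar.pow_apply_coe ψ (ℓ ^ a) (Units.mk0 _ hc0)
          rw [hψa, MulChar.one_apply_coe] at h6
          exact h6.symm
        rw [h2, map_one]
      obtain ⟨c, hc1, hc2⟩ := hcφ
      have hmem : ∀ e, w e = (1, ψ D.leadingCoeff * (Nat.card k : ℂ)) ∨
          ∃ P ∈ Z, ∃ x : ℂ, x ^ P.1.natDegree = 1 ∧ w e = (-1, ψ D.leadingCoeff * x) := by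
        intro e
        have h1 := hw e
        rw [Multiset.mem_add, Multiset.mem_singleton, Multiset.mem_sum] at h1
        rcases h1 with h1 | ⟨P, hP, h1⟩
        · exact Or.inl h1
        · rw [Multiset.mem_map] at h1
          obtain ⟨x, hx, hx2⟩ := h1
          rw [mem_nthRoots P.2.2.natDegree_pos] at hx
          exact Or.inr ⟨P, hP, x, hx, hx2.symm⟩
      refine ⟨n, w, ?_, fun e => ?_, fun e hq => ?_⟩
      · intro K _ _ _
        rw [← hs fun p => p.1 * p.2 ^ Module.finrank k K]
        unfold gf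
        simp only [if_neg h0]
        have h1 := sum_triv (K := K) ψ D.leadingCoeff D₀ hm htriv Z hZ
        rw [← hDD, hψ] at h1
        rw [h1, Multiset.map_add, Multiset.sum_add, map_sum_sum, Multiset.map_singleton,
          Multiset.sum_singleton, one_mul, hψ, sub_eq_add_neg, ← Finset.sum_neg_distrib]
        congr 1
        refine Finset.sum_congr rfl fun P _ => ?_
        rw [Multiset.map_map]
        exact neg_sum _ _ _ fun x => by rw [Function.comp_apply]; ring
      · rcases hmem e with h | ⟨P, _, x, _, h⟩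
        · rw [h]
          exact Or.inl rfl
        · rw [h]
          exact Or.inr rfl
      · have hno : Irreducible D → False := by
          intro h
          obtain ⟨b, hb⟩ : ∃ b : kˣ, ψ b ≠ 1 := by
            by_contra h
            push Not at h
            exact hψ1 (MulChar.eq_one_iff.2 h)
          obtain ⟨u, hu, hub⟩ := exists_unit_norm D₀ hm (hirr h).squarefree
            (hirr h).natDegree_pos (b : k) b.ne_zero
          exact hb (by rw [← hub]; exact htriv u hu)
        rcases hmem e with h | ⟨P, hP, x, hx, h⟩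
        · rw [h]
          refine ⟨c * (Nat.card k : AI), 1, ?_, fun _ => ?_, Or.inl rfl, fun _ h => (hno h).elim⟩
          · push_cast
            rw [hc1]
          · rw [map_mul, hc2, map_natCast, hq, mul_one, one_pow]
        · rw [h]
          have hxi : IsIntegral ℤ x := by
            refine IsIntegral.of_pow P.2.2.natDegree_pos ?_
            rw [hx]
            exact isIntegral_one
          refine ⟨c * ⟨x, hxi⟩, P.1.natDegree, ?_, fun _ => ?_,
            Or.inr ⟨P.1, P.2.2, ?_, rfl⟩, fun _ h => (hno h).elim⟩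
          · change (c : ℂ) * x = _
            rw [hc1]
          · rw [map_mul, hc2, one_mul, ← map_pow]
            have h2 : (⟨x, hxi⟩ : AI) ^ P.1.natDegree = 1 := by
              apply Subtype.ext
              rw [SubmonoidClass.coe_pow]
              exact hx
            rw [h2, map_one]
          · rw [hDD]
            exact ((hZ P).1 hP).mul_left _
    · push Not at htriv
      have hvan := S_van ψ D.leadingCoeff D₀ hm htriv
      have hcoef := coef_gen ψ D.leadingCoeff D₀ hvan
      obtain ⟨n, w, hw, hs⟩ := exists_fn' ((Lp ψ D.leadingCoeff D₀ 1).roots.map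
        fun t => ((-1 : ℂ), t⁻¹))
      have hmem : ∀ e, ∃ t, (Lp ψ D.leadingCoeff D₀ 1).eval t = 0 ∧ w e = (-1, t⁻¹) := by
        intro e
        have h1 := hw e
        rw [Multiset.mem_map] at h1
        obtain ⟨t, ht, ht2⟩ := h1
        exact ⟨t, (mem_roots'.1 ht).2, ht2.symm⟩
      refine ⟨n, w, ?_, fun e => ?_, fun e hq => ?_⟩
      · intro K _ _ _
        rw [← hs fun p => p.1 * p.2 ^ Module.finrank k K]
        unfold gf
        simp only [if_neg h0]
        have h1 := sum_char' (K := K) ψ D.leadingCoeff D₀ hm hcoef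
        rw [← hDD, hψ] at h1
        rw [h1, Multiset.map_map, hψ]
        exact neg_sum _ _ _ fun x => by rw [Function.comp_apply]; ring
      · obtain ⟨t, _, h⟩ := hmem e
        rw [h]
        exact Or.inr rfl
      · obtain ⟨t, ht, h⟩ := hmem e
        rw [h]
        by_cases hQ : Irreducible D ∧ Nat.Coprime D.natDegree ℓ
        · obtain ⟨g, hg1, hg2, hg3⟩ := root_red ℓ φ ψ hψ1 a hψa D.leadingCoeff hc0 D₀ hm
            (hirr hQ.1) (by rw [hnat]; exact hQ.2) t ht
          rw [hnat] at hg2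
          exact ⟨g, D.natDegree, eq_inv_of_mul_eq_one_left hg1, fun _ => hg2,
            Or.inr ⟨D, hQ.1, dvd_rfl, rfl⟩, fun _ _ _ => ⟨hg2, hg3⟩⟩
        · obtain ⟨g, hg1, hgf⟩ := root_fac' ℓ φ ψ hψ1 a hψa D.leadingCoeff hc0 D₀ hm hvan
            (by rw [hnat]; exact hdg) t ht
          by_cases hφ0 : φ g = 0
          · exact ⟨g, 1, eq_inv_of_mul_eq_one_left hg1, fun h => absurd hφ0 h, Or.inl rfl,
              fun _ h1 h2 => absurd ⟨h1, h2⟩ hQ⟩
          · obtain ⟨π, hπ1, hπ2, hπ3⟩ := hgf hφ0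
            refine ⟨g, π.natDegree, eq_inv_of_mul_eq_one_left hg1, fun _ => hπ3,
              Or.inr ⟨π, hπ1, ?_, rfl⟩, fun _ h1 h2 => absurd ⟨h1, h2⟩ hQ⟩
            rw [hDD]
            exact hπ2.mul_left _

end Pool.Agent.J4H10.BS
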