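import Pool.Agent.J4H10.Tw.Main
import Pool.Agent.J4H10.BS.Log

/-!
# Character sums over extension fields as sums over prime polynomials
-/

set_option autoImplicit false
set_option linter.unusedSectionVars false
set_option linter.style.haveILetI false

open Polynomial

namespace Pool.Agent.J4H10.BS

open Pool.Agent.W313.Hyp Pool.Agent.W343.BSD Pool.Agent.J4H10.Tw

variable {k : Type} [Field k] [Finite k] {K : Type} [Field K] [Algebra k K] [Finite K]

theorem finrank_adj (P : k[X]) (hP : P.Monic) :
    Module.finrank k (AdjoinRoot P) = P.natDegree := by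
  rw [(AdjoinRoot.powerBasis' hP).finrank, AdjoinRoot.powerBasis'_dim]

theorem norm_aeval (P D : k[X]) (hP : P.Monic) (hirr : Irreducible P) (x : K)
    (hx : aeval x P = 0) :
    Algebra.norm k (aeval x D) = nrm P D ^ (Module.finrank k K / P.natDegree) := by
  haveI : Fact (Irreducible P) := ⟨hirr⟩
  let f : AdjoinRoot P →ₐ[k] K := AdjoinRoot.liftAlgHom P (Algebra.ofId k K) x (by
    rw [aeval_def] at hx
    exact hx)
  letI : Algebra (AdjoinRoot P) K := f.toRingHom.toAlgebra
  haveI : IsScalarTower k (AdjoinRoot P) K := IsScalarTower.of_algebraMap_eq' f.comp_algebraMap.symm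
  haveI : Finite (AdjoinRoot P) := Finite.of_injective f f.toRingHom.injective
  haveI : Module.Finite k (AdjoinRoot P) := Module.Finite.of_finite
  haveI : Module.Finite (AdjoinRoot P) K := Module.Finite.of_finite
  have h1 : aeval x D = algebraMap (AdjoinRoot P) K (AdjoinRoot.mk P D) := by
    change _ = f (AdjoinRoot.mk P D)
    have h2 : f (AdjoinRoot.root P) = x := by
      simp only [f]
      exact AdjoinRoot.lift_root (by rw [aeval_def] at hx; exact hx)
    rw [← AdjoinRoot.aeval_eq, ← aeval_algHom_apply, h2]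
  have h3 : Module.finrank k (AdjoinRoot P) * Module.finrank (AdjoinRoot P) K =
      Module.finrank k K := Module.finrank_mul_finrank k (AdjoinRoot P) K
  rw [finrank_adj P hP] at h3
  have h4 : Module.finrank k K / P.natDegree = Module.finrank (AdjoinRoot P) K := by
    rw [← h3, Nat.mul_div_cancel_left _ hirr.natDegree_pos]
  have h5 := Algebra.norm_norm (R := k) (S := AdjoinRoot P)
    (a := algebraMap (AdjoinRoot P) K (AdjoinRoot.mk P D))
  rw [h1, ← h5, Algebra.norm_algebraMap, map_pow, h4]
  rfl

theorem card_fiber (P : k[X]) (hP : P.Monic) (hirr : Irreducible P)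
    (hd : P.natDegree ∣ Module.finrank k K) :
    Nat.card {x : K // minpoly k x = P} = P.natDegree := by
  haveI : Fact (Irreducible P) := ⟨hirr⟩
  have h1 := FiniteField.natCard_algHom_of_finrank_dvd (F := k) (K := AdjoinRoot P) (L := K)
    (by rw [finrank_adj P hP]; exact hd)
  rw [finrank_adj P hP] at h1
  rw [← h1]
  symm
  refine Nat.card_congr (Equiv.ofBijective (fun f => ⟨f (AdjoinRoot.root P), ?_⟩) ⟨?_, ?_⟩)
  · refine (minpoly.eq_of_irreducible_of_monic hirr ?_ hP).symm
    rw [aeval_algHom_apply, AdjoinRoot.aeval_eq, AdjoinRoot.mk_self, map_zero]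
  · intro f g hfg
    exact AdjoinRoot.algHom_ext (Subtype.ext_iff.1 hfg)
  · rintro ⟨x, hx⟩
    have hx' : aeval x P = 0 := by rw [← hx]; exact minpoly.aeval k x
    refine ⟨AdjoinRoot.liftAlgHom P (Algebra.ofId k K) x (by
      rw [aeval_def] at hx'
      exact hx'), Subtype.ext ?_⟩
    exact AdjoinRoot.lift_root (by rw [aeval_def] at hx'; exact hx')

open Classical in
theorem sum_points [Fintype K] (χ : MulChar k ℂ) (D : k[X]) (A : Finset (MI k))
    (hA : ∀ P : MI k, P.1.natDegree ≤ Module.finrank k K → P ∈ A) :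
    ∑ x : K, χ (Algebra.norm k (aeval x D)) =
      ∑ P ∈ A, if P.1.natDegree ∣ Module.finrank k K then
        (P.1.natDegree : ℂ) * χ (nrm P.1 D) ^ (Module.finrank k K / P.1.natDegree) else 0 := by
  haveI : Module.Finite k K := Module.Finite.of_finite
  let mp : K → MI k := fun x => ⟨minpoly k x, minpoly.monic (IsIntegral.of_finite k x),
    minpoly.irreducible (IsIntegral.of_finite k x)⟩
  have hmp : ∀ x ∈ (Finset.univ : Finset K), mp x ∈ A := fun x _ => hA _ (minpoly.natDegree_le x)
  rw [← Finset.sum_fiberwise_of_maps_to hmp]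
  refine Finset.sum_congr rfl fun P hP => ?_
  have h1 : ∀ x ∈ (Finset.univ : Finset K).filter (fun x => mp x = P),
      χ (Algebra.norm k (aeval x D)) =
        χ (nrm P.1 D) ^ (Module.finrank k K / P.1.natDegree) := by
    intro x hx
    rw [Finset.mem_filter] at hx
    have h2 : minpoly k x = P.1 := congrArg Subtype.val hx.2
    rw [norm_aeval P.1 D P.2.1 P.2.2 x (by rw [← h2]; exact minpoly.aeval k x), map_pow]
  rw [Finset.sum_congr rfl h1, Finset.sum_const, nsmul_eq_mul]
  split_ifs with hd
  · congr 1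
    rw [← card_fiber (K := K) P.1 P.2.1 P.2.2 hd, Nat.card_eq_fintype_card,
      Fintype.card_subtype]
    congr 2
    ext x
    rw [Finset.mem_filter, Finset.mem_filter]
    exact ⟨fun h => ⟨h.1, congrArg Subtype.val h.2⟩, fun h => ⟨h.1, Subtype.ext h.2⟩⟩
  · have h2 : (Finset.univ : Finset K).filter (fun x => mp x = P) = ∅ := by
      rw [Finset.filter_eq_empty_iff]
      intro x _ hx
      apply hd
      have h2 : minpoly k x = P.1 := congrArg Subtype.val hx
      rw [← h2]
      exact minpoly.degree_dvd (IsIntegral.of_finite k x)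
    rw [h2, Finset.card_empty, Nat.cast_zero, zero_mul]

/-- character sums over the extension fields and the inverse roots of the L-polynomial -/
theorem sum_char (χ : MulChar k ℂ) (hχ : χ ≠ 1) (c : k) (D₀ : k[X]) (hD : D₀.Monic)
    (hsq : Squarefree D₀) (hdg : 0 < D₀.natDegree) [Fintype K] :
    ∑ x : K, χ (Algebra.norm k (aeval x (C c * D₀))) =
      -((Lp χ c D₀ 1).roots.map fun t => t⁻¹ ^ Module.finrank k K).sum := by
  classical
  haveI : Module.Finite k K := Module.Finite.of_finite
  obtain ⟨n, hn⟩ : ∃ n, n = Module.finrank k K := ⟨_, rfl⟩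
  have hn0 : 0 < n := by rw [hn]; exact Module.finrank_pos
  obtain ⟨A, hA⟩ : ∃ A : Finset (MI k), A = (finite_deg_le (F := k) n).toFinset := ⟨_, rfl⟩
  have hA' : ∀ P : MI k, P.1.natDegree ≤ n → P ∈ A := fun P hP => by
    rw [hA, Set.Finite.mem_toFinset]; exact hP
  rw [sum_points χ (C c * D₀) A (by rw [← hn]; exact hA'), ← hn]
  obtain ⟨h, hh⟩ : ∃ h, h = hf χ c D₀ := ⟨_, rfl⟩
  have hCM : CM h := by rw [hh]; exact hf_CM χ c D₀
  have hL0 : (Lp χ c D₀ 1).coeff 0 = 1 := by
    rw [coeff_Lp χ hχ c D₀ hD hsq hdg, one_pow, mul_one,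
      S_zero (hf_CM χ c D₀)]
  have hne : Lp χ c D₀ 1 ≠ 0 := Lp_ne_zero χ hχ c D₀ hD hsq hdg 1
  -- the Euler product side
  have h1 := prod_mul_GH hCM A
  have hc1 : ∀ P : MI k, PowerSeries.constantCoeff
      (1 - PowerSeries.C (h P.1) * PowerSeries.X ^ P.1.natDegree : PowerSeries ℂ) = 1 := by
    intro P
    rw [map_sub, map_one, map_mul, map_pow, PowerSeries.constantCoeff_X,
      zero_pow P.2.2.natDegree_pos.ne', mul_zero, sub_zero]
  have hcE : PowerSeries.constantCoeff (∏ P ∈ A,
      (1 - PowerSeries.C (h P.1) * PowerSeries.X ^ P.1.natDegree : PowerSeries ℂ)) = 1 := by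
    rw [map_prod]
    exact Finset.prod_eq_one fun P _ => hc1 P
  have hcG : PowerSeries.constantCoeff (GH h A) = 1 := by
    have h2 := congrArg PowerSeries.constantCoeff h1
    rwa [map_mul, hcE, one_mul, map_one] at h2
  have h2 := congrArg ld h1
  rw [ld_mul _ _ (by rw [hcE]; exact one_ne_zero) (by rw [hcG]; exact one_ne_zero), ld_one,
    ld_prod _ _ (fun P _ => by rw [hc1 P]; exact one_ne_zero)] at h2
  have h3 := congrArg (PowerSeries.coeff n) h2
  rw [map_add, map_sum, map_zero] at h3
  have h4 : ∀ P ∈ A, PowerSeries.coeff n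
      (ld (1 - PowerSeries.C (h P.1) * PowerSeries.X ^ P.1.natDegree)) =
      -(if P.1.natDegree ∣ n then (P.1.natDegree : ℂ) * h P.1 ^ (n / P.1.natDegree) else 0) :=
    fun P _ => coeff_ld_one_sub (h P.1) P.1.natDegree P.2.2.natDegree_pos n hn0
  rw [Finset.sum_congr rfl h4, Finset.sum_neg_distrib] at h3
  -- the polynomial side
  have h5 : ((Lp χ c D₀ 1 : ℂ[X]) : PowerSeries ℂ) =
      ((Lp χ c D₀ 1).roots.map fun t => (1 - PowerSeries.C t⁻¹ * PowerSeries.X ^ 1 :
        PowerSeries ℂ)).prod := by
    have h6 : (Lp χ c D₀ 1).roots.card = (Lp χ c D₀ 1).natDegree :=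
      splits_iff_card_roots.1 (IsAlgClosed.splits _)
    have h7 := C_leadingCoeff_mul_prod_multiset_X_sub_C h6
    have h8 : ∀ t ∈ (Lp χ c D₀ 1).roots, t ≠ 0 := by
      rintro t ht rfl
      rw [mem_roots hne, IsRoot.def, ← coeff_zero_eq_eval_zero, hL0] at ht
      exact one_ne_zero ht
    have h9 : ∀ s : Multiset ℂ, (∀ t ∈ s, t ≠ 0) →
        (s.map fun t => (X - C t : ℂ[X])).prod =
          C ((s.map fun t => -t).prod) * (s.map fun t => (1 - C t⁻¹ * X : ℂ[X])).prod := by
      intro s
      induction s using Multiset.induction_on with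
      | empty => intro _; simp
      | cons a s ih =>
        intro hs
        rw [Multiset.map_cons, Multiset.prod_cons, Multiset.map_cons, Multiset.prod_cons,
          Multiset.map_cons, Multiset.prod_cons, ih fun t ht => hs t (Multiset.mem_cons_of_mem ht),
          C_mul]
        have h10 : (X - C a : ℂ[X]) = C (-a) * (1 - C a⁻¹ * X) := by
          have h11 : C a * C a⁻¹ = (1 : ℂ[X]) := by
            rw [← C_mul, mul_inv_cancel₀ (hs a (Multiset.mem_cons_self _ _)), C_1]
          rw [C_neg]
          linear_combination (-X) * h11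
        rw [h10]
        ring
    rw [h9 _ h8, ← mul_assoc, ← C_mul] at h7
    have h10 : (Lp χ c D₀ 1).leadingCoeff * ((Lp χ c D₀ 1).roots.map fun t => -t).prod = 1 := by
      have h11 := congrArg (fun p : ℂ[X] => p.coeff 0) h7
      rw [hL0, coeff_C_mul] at h11
      have h12 : ((Lp χ c D₀ 1).roots.map fun t => (1 - C t⁻¹ * X : ℂ[X])).prod.coeff 0 = 1 := by
        rw [coeff_zero_multiset_prod, Multiset.map_map]
        apply Multiset.prod_eq_one
        intro y hy
        rw [Multiset.mem_map] at hy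
        obtain ⟨t, _, rfl⟩ := hy
        simp
      rwa [h12, mul_one] at h11
    rw [h10, C_1, one_mul] at h7
    rw [← h7]
    have h13 : ∀ s : Multiset ℂ, (((s.map fun t => (1 - C t⁻¹ * X : ℂ[X])).prod : ℂ[X]) :
        PowerSeries ℂ) = (s.map fun t => (1 - PowerSeries.C t⁻¹ * PowerSeries.X ^ 1 :
          PowerSeries ℂ)).prod := by
      intro s
      induction s using Multiset.induction_on with
      | empty => simp
      | cons a s ih =>
        rw [Multiset.map_cons, Multiset.prod_cons, Multiset.map_cons, Multiset.prod_cons,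
          Polynomial.coe_mul, ih]
        congr 1
        simp
    rw [h13, h7]
  have h6 : PowerSeries.coeff n (ld (GH h A)) =
      PowerSeries.coeff n (ld ((Lp χ c D₀ 1 : ℂ[X]) : PowerSeries ℂ)) := by
    refine ld_congr _ _ (by rw [hcG]; exact one_ne_zero) ?_ n fun m hm => ?_
    · rw [Polynomial.constantCoeff_coe, hL0]
      exact one_ne_zero
    · rw [coeff_GH h A n hA' m hm, Polynomial.coeff_coe,
        coeff_Lp χ hχ c D₀ hD hsq hdg, one_pow, mul_one, hh]
  have h7 : PowerSeries.coeff n (ld ((Lp χ c D₀ 1 : ℂ[X]) : PowerSeries ℂ)) =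
      -((Lp χ c D₀ 1).roots.map fun t => t⁻¹ ^ n).sum := by
    rw [h5, ld_multiset _ _ (fun t => by
      rw [map_sub, map_one, map_mul, map_pow, PowerSeries.constantCoeff_X, zero_pow one_ne_zero,
        mul_zero, sub_zero]; exact one_ne_zero), map_multiset_sum, Multiset.map_map]
    have h14 : ∀ s : Multiset ℂ, (s.map ((fun A => PowerSeries.coeff n A) ∘
        fun t => ld (1 - PowerSeries.C t⁻¹ * PowerSeries.X ^ 1 : PowerSeries ℂ))).sum =
        -(s.map fun t => t⁻¹ ^ n).sum := by
      intro s
      induction s using Multiset.induction_on with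
      | empty => simp
      | cons a s ih =>
        rw [Multiset.map_cons, Multiset.sum_cons, Multiset.map_cons, Multiset.sum_cons, ih,
          Function.comp_apply, coeff_ld_one_sub _ 1 one_pos n hn0, if_pos (one_dvd _),
          Nat.cast_one, one_mul, Nat.div_one]
        ring
    exact h14 _
  rw [h6, h7] at h3
  have h8 : ∀ P ∈ A, (if P.1.natDegree ∣ n then
      (P.1.natDegree : ℂ) * χ (nrm P.1 (C c * D₀)) ^ (n / P.1.natDegree) else 0) =
      (if P.1.natDegree ∣ n then (P.1.natDegree : ℂ) * h P.1 ^ (n / P.1.natDegree) else 0) := by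
    intro P _
    rw [hf_prime χ c D₀ P.1 hD P.2.1, hh]
  rw [Finset.sum_congr rfl h8]
  linear_combination -h3

end Pool.Agent.J4H10.BS
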